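import Mathlib

/-!
# Configurations of points in the plane: lines, general position, `ONLINE`, `LC`, `GP`
-/

set_option autoImplicit false

namespace Pool.Agent.Q231.GPK

/-- `ℓ` is a line of the plane `ℝ²` -/
def IsLine (ℓ : Set (ℝ × ℝ)) : Prop :=
  ∃ a b c : ℝ, (a ≠ 0 ∨ b ≠ 0) ∧ ℓ = {p | a * p.1 + b * p.2 = c}

/-- general position: no line contains three different points of `A` -/
def GenPos (A : Finset (ℝ × ℝ)) : Prop :=
  ∀ ℓ, IsLine ℓ → ∀ x ∈ A, ∀ y ∈ A, ∀ z ∈ A, x ≠ y → y ≠ z → x ≠ z → ¬ (x ∈ ℓ ∧ y ∈ ℓ ∧ z ∈ ℓ)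

open Classical in
/-- the points of `S` in `ℓ` -/
noncomputable def on (S : Finset (ℝ × ℝ)) (ℓ : Set (ℝ × ℝ)) : Finset (ℝ × ℝ) := S.filter fun p => p ∈ ℓ

/-- `ONLINE(S)`: the largest number of points of `S` on one line -/
noncomputable def ONLINE (S : Finset (ℝ × ℝ)) : ℕ := sSup {n | ∃ ℓ, IsLine ℓ ∧ (on S ℓ).card = n}

/-- `LC(S)`: the least number of lines whose union contains `S` -/
noncomputable def LC (S : Finset (ℝ × ℝ)) : ℕ :=
  sInf {n | ∃ L : Finset (Set (ℝ × ℝ)), (∀ ℓ ∈ L, IsLine ℓ) ∧ (∀ p ∈ S, ∃ ℓ ∈ L, p ∈ ℓ) ∧ L.card = n}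

open Classical in
/-- `GP(S)`: the least number of parts in a partition of `S` into subsets in general position -/
noncomputable def GP (S : Finset (ℝ × ℝ)) : ℕ :=
  sInf {n | ∃ P : Finpartition S, (∀ A ∈ P.parts, GenPos A) ∧ P.parts.card = n}

/-! ## Lines -/

/-- the determinant of three points -/
def det (x y z : ℝ × ℝ) : ℝ := (y.1 - x.1) * (z.2 - x.2) - (y.2 - x.2) * (z.1 - x.1)

theorem det_of_mem {ℓ : Set (ℝ × ℝ)} (hℓ : IsLine ℓ) {x y z : ℝ × ℝ} (hx : x ∈ ℓ) (hy : y ∈ ℓ) (hz : z ∈ ℓ) :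
    det x y z = 0 := by
  obtain ⟨a, b, c, hab, rfl⟩ := hℓ
  simp only [Set.mem_ofPred_eq] at hx hy hz
  unfold det
  rcases hab with h | h
  · have : a * ((y.1 - x.1) * (z.2 - x.2) - (y.2 - x.2) * (z.1 - x.1)) = 0 := by
      linear_combination (z.2 - x.2) * (hy - hx) - (y.2 - x.2) * (hz - hx)
    exact (mul_eq_zero.1 this).resolve_left h
  · have : b * ((y.1 - x.1) * (z.2 - x.2) - (y.2 - x.2) * (z.1 - x.1)) = 0 := by
      linear_combination (y.1 - x.1) * (hz - hx) - (z.1 - x.1) * (hy - hx)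
    exact (mul_eq_zero.1 this).resolve_left h

theorem mem_of_det {ℓ : Set (ℝ × ℝ)} (hℓ : IsLine ℓ) {x y z : ℝ × ℝ} (hxy : x ≠ y) (hx : x ∈ ℓ) (hy : y ∈ ℓ)
    (h : det x y z = 0) : z ∈ ℓ := by
  obtain ⟨a, b, c, hab, rfl⟩ := hℓ
  simp only [Set.mem_ofPred_eq] at hx hy ⊢
  unfold det at h
  by_cases h1 : y.1 - x.1 = 0
  · by_cases h2 : y.2 - x.2 = 0
    · exact absurd (Prod.ext (by linarith) (by linarith)) hxy
    · have : (y.2 - x.2) * (a * z.1 + b * z.2 - c) = 0 := by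
        linear_combination (z.2 - x.2) * (hy - hx) - a * h + (y.2 - x.2) * hx
      have := (mul_eq_zero.1 this).resolve_left h2
      linarith
  · have : (y.1 - x.1) * (a * z.1 + b * z.2 - c) = 0 := by
      linear_combination (z.1 - x.1) * (hy - hx) + b * h + (y.1 - x.1) * hx
    have := (mul_eq_zero.1 this).resolve_left h1
    linarith

/-- two different lines have at most one point in common -/
theorem line_eq {ℓ ℓ' : Set (ℝ × ℝ)} (hℓ : IsLine ℓ) (hℓ' : IsLine ℓ') {x y : ℝ × ℝ} (hxy : x ≠ y)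
    (hx : x ∈ ℓ) (hy : y ∈ ℓ) (hx' : x ∈ ℓ') (hy' : y ∈ ℓ') : ℓ = ℓ' := by
  ext z
  constructor
  · intro hz
    exact mem_of_det hℓ' hxy hx' hy' (det_of_mem hℓ hx hy hz)
  · intro hz
    exact mem_of_det hℓ hxy hx hy (det_of_mem hℓ' hx' hy' hz)

/-- the line through two points -/
def lin (x y : ℝ × ℝ) : Set (ℝ × ℝ) := {z | det x y z = 0}

theorem lin_isLine {x y : ℝ × ℝ} (hxy : x ≠ y) : IsLine (lin x y) := by
  refine ⟨-(y.2 - x.2), y.1 - x.1, -(y.2 - x.2) * x.1 + (y.1 - x.1) * x.2, ?_, ?_⟩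
  · by_contra h
    push Not at h
    exact hxy (Prod.ext (by linarith [h.2]) (by linarith [h.1]))
  · ext z
    simp only [lin, det, Set.mem_ofPred_eq]
    constructor <;> intro h <;> linarith

theorem left_mem_lin (x y : ℝ × ℝ) : x ∈ lin x y := by
  simp only [lin, det, Set.mem_ofPred_eq]
  ring

theorem right_mem_lin (x y : ℝ × ℝ) : y ∈ lin x y := by
  simp only [lin, det, Set.mem_ofPred_eq]
  ring

/-- through every point goes a line -/
theorem exists_line (x : ℝ × ℝ) : ∃ ℓ, IsLine ℓ ∧ x ∈ ℓ := by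
  refine ⟨lin x (x.1 + 1, x.2), lin_isLine ?_, left_mem_lin _ _⟩
  intro h
  have := congrArg Prod.fst h
  simp at this

theorem eq_lin {ℓ : Set (ℝ × ℝ)} (hℓ : IsLine ℓ) {x y : ℝ × ℝ} (hxy : x ≠ y) (hx : x ∈ ℓ) (hy : y ∈ ℓ) : ℓ = lin x y :=
  line_eq hℓ (lin_isLine hxy) hxy hx hy (left_mem_lin _ _) (right_mem_lin _ _)

theorem mem_on {S : Finset (ℝ × ℝ)} {ℓ : Set (ℝ × ℝ)} {p : ℝ × ℝ} : p ∈ on S ℓ ↔ p ∈ S ∧ p ∈ ℓ := by
  classical
  unfold on
  rw [Finset.mem_filter]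

theorem on_mono {A S : Finset (ℝ × ℝ)} (h : A ⊆ S) (ℓ : Set (ℝ × ℝ)) : on A ℓ ⊆ on S ℓ := by
  intro p hp
  rw [mem_on] at hp ⊢
  exact ⟨h hp.1, hp.2⟩

theorem GenPos.mono {A B : Finset (ℝ × ℝ)} (hB : GenPos B) (h : A ⊆ B) : GenPos A :=
  fun ℓ hℓ x hx y hy z hz => hB ℓ hℓ x (h hx) y (h hy) z (h hz)

/-- a line contains at most two points of a set in general position -/
theorem GenPos.card_on {A : Finset (ℝ × ℝ)} (hA : GenPos A) {ℓ : Set (ℝ × ℝ)} (hℓ : IsLine ℓ) : (on A ℓ).card ≤ 2 := by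
  by_contra h
  push Not at h
  obtain ⟨x, y, z, hx, hy, hz, hxy, hxz, hyz⟩ := Finset.two_lt_card_iff.1 h
  rw [mem_on] at hx hy hz
  exact hA ℓ hℓ x hx.1 y hy.1 z hz.1 hxy hyz hxz ⟨hx.2, hy.2, hz.2⟩

theorem genPos_singleton (p : ℝ × ℝ) : GenPos {p} := by
  intro ℓ _ x hx y hy z _ hxy
  rw [Finset.mem_singleton] at hx hy
  exact absurd (hx.trans hy.symm) hxy

theorem genPos_insert {A : Finset (ℝ × ℝ)} [DecidableEq (ℝ × ℝ)] (hA : GenPos A) {z : ℝ × ℝ}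
    (h : ∀ x ∈ A, ∀ y ∈ A, x ≠ y → ∀ ℓ, IsLine ℓ → x ∈ ℓ → y ∈ ℓ → z ∉ ℓ) : GenPos (insert z A) := by
  intro ℓ hℓ a ha b hb c hc hab hbc hac hall
  rw [Finset.mem_insert] at ha hb hc
  rcases ha with rfl | ha
  · rcases hb with rfl | hb
    · exact hab rfl
    · rcases hc with rfl | hc
      · exact hac rfl
      · exact h b hb c hc hbc ℓ hℓ hall.2.1 hall.2.2 hall.1
  · rcases hb with rfl | hb
    · rcases hc with rfl | hc
      · exact hbc rfl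
      · exact h a ha c hc hac ℓ hℓ hall.1 hall.2.2 hall.2.1
    · rcases hc with rfl | hc
      · exact h a ha b hb hab ℓ hℓ hall.1 hall.2.1 hall.2.2
      · exact hA ℓ hℓ a ha b hb c hc hab hbc hac hall

/-! ## `ONLINE`, `LC`, `GP` -/

theorem online_bdd (S : Finset (ℝ × ℝ)) : BddAbove {n | ∃ ℓ, IsLine ℓ ∧ (on S ℓ).card = n} := by
  refine ⟨S.card, ?_⟩
  rintro n ⟨ℓ, _, rfl⟩
  refine Finset.card_le_card fun x hx => (mem_on.1 hx).1

theorem le_online {S : Finset (ℝ × ℝ)} {ℓ : Set (ℝ × ℝ)} (hℓ : IsLine ℓ) : (on S ℓ).card ≤ ONLINE S :=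
  le_csSup (online_bdd S) ⟨ℓ, hℓ, rfl⟩

theorem exists_online (S : Finset (ℝ × ℝ)) : ∃ ℓ, IsLine ℓ ∧ (on S ℓ).card = ONLINE S := by
  refine Nat.sSup_mem ?_ (online_bdd S)
  obtain ⟨ℓ, hℓ, _⟩ := exists_line (0, 0)
  exact ⟨_, ℓ, hℓ, rfl⟩

theorem lc_nonempty (S : Finset (ℝ × ℝ)) :
    ({n | ∃ L : Finset (Set (ℝ × ℝ)), (∀ ℓ ∈ L, IsLine ℓ) ∧ (∀ p ∈ S, ∃ ℓ ∈ L, p ∈ ℓ) ∧ L.card = n} : Set ℕ).Nonempty := by
  classical
  choose f hf hf2 using exists_line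
  refine ⟨_, S.image f, ?_, ?_, rfl⟩
  · intro ℓ hℓ
    obtain ⟨p, _, rfl⟩ := Finset.mem_image.1 hℓ
    exact hf p
  · intro p hp
    exact ⟨f p, Finset.mem_image_of_mem f hp, hf2 p⟩

theorem exists_lc (S : Finset (ℝ × ℝ)) :
    ∃ L : Finset (Set (ℝ × ℝ)), (∀ ℓ ∈ L, IsLine ℓ) ∧ (∀ p ∈ S, ∃ ℓ ∈ L, p ∈ ℓ) ∧ L.card = LC S :=
  Nat.sInf_mem (lc_nonempty S)

theorem lc_le {S : Finset (ℝ × ℝ)} (L : Finset (Set (ℝ × ℝ))) (h1 : ∀ ℓ ∈ L, IsLine ℓ) (h2 : ∀ p ∈ S, ∃ ℓ ∈ L, p ∈ ℓ) :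
    LC S ≤ L.card := Nat.sInf_le ⟨L, h1, h2, rfl⟩

open Classical in
theorem exists_gp (S : Finset (ℝ × ℝ)) : ∃ P : Finpartition S, (∀ A ∈ P.parts, GenPos A) ∧ P.parts.card = GP S := by
  have h : ({n | ∃ P : Finpartition S, (∀ A ∈ P.parts, GenPos A) ∧ P.parts.card = n} : Set ℕ).Nonempty := by
    refine ⟨_, (⊥ : Finpartition S), ?_, rfl⟩
    intro A hA
    rw [Finpartition.parts_bot, Finset.mem_map] at hA
    obtain ⟨p, _, rfl⟩ := hA
    exact genPos_singleton p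
  exact Nat.sInf_mem h

/-- a colouring gives a partition -/
theorem gp_le {S : Finset (ℝ × ℝ)} {ι : Type} [DecidableEq ι] (f : ℝ × ℝ → ι) (T : Finset ι) (hf : ∀ x ∈ S, f x ∈ T)
    (h : ∀ j ∈ T, GenPos (S.filter fun x => f x = j)) : GP S ≤ T.card := by
  classical
  let P : Finpartition S := Finpartition.ofErase (T.image fun j => S.filter fun x => f x = j)
    (by
      rw [Finset.supIndep_iff_pairwiseDisjoint]
      intro A hA B hB hAB
      rw [Finset.mem_coe, Finset.mem_image] at hA hB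
      obtain ⟨i, _, rfl⟩ := hA
      obtain ⟨j, _, rfl⟩ := hB
      simp only [id_eq, Function.onFun]
      rw [Finset.disjoint_left]
      intro x hx hx'
      rw [Finset.mem_filter] at hx hx'
      apply hAB
      rw [← hx.2, ← hx'.2])
    (by
      ext x
      simp only [Finset.mem_sup, Finset.mem_image, id_eq]
      constructor
      · rintro ⟨_, ⟨j, _, rfl⟩, hx⟩
        exact (Finset.mem_filter.1 hx).1
      · intro hx
        exact ⟨_, ⟨f x, hf x hx, rfl⟩, Finset.mem_filter.2 ⟨hx, rfl⟩⟩)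
  have h1 : GP S ≤ P.parts.card := by
    refine Nat.sInf_le ⟨P, ?_, rfl⟩
    intro A hA
    have hA' : A ∈ T.image fun j => S.filter fun x => f x = j := Finset.mem_of_mem_erase hA
    obtain ⟨j, hj, rfl⟩ := Finset.mem_image.1 hA'
    exact h j hj
  exact h1.trans ((Finset.card_erase_le).trans Finset.card_image_le)

theorem gp_le_card (S : Finset (ℝ × ℝ)) : GP S ≤ S.card := by
  classical
  refine gp_le id S (fun x hx => hx) ?_
  intro j _
  refine (genPos_singleton j).mono ?_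
  intro x hx
  rw [Finset.mem_filter] at hx
  exact Finset.mem_singleton.2 hx.2

theorem online_le_gp (S : Finset (ℝ × ℝ)) : ONLINE S ≤ 2 * GP S := by
  classical
  obtain ⟨ℓ, hℓ, h⟩ := exists_online S
  obtain ⟨P, hP, hc⟩ := exists_gp S
  rw [← h, ← hc]
  have h1 : on S ℓ ⊆ P.parts.biUnion fun A => on A ℓ := by
    intro x hx
    rw [mem_on] at hx
    obtain ⟨A, hA, hxA⟩ := P.exists_mem hx.1
    exact Finset.mem_biUnion.2 ⟨A, hA, mem_on.2 ⟨hxA, hx.2⟩⟩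
  refine (Finset.card_le_card h1).trans (Finset.card_biUnion_le.trans ?_)
  refine (Finset.sum_le_card_nsmul _ _ 2 fun A hA => (hP A hA).card_on hℓ).trans ?_
  rw [smul_eq_mul, mul_comm]

end Pool.Agent.Q231.GPK
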