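import Pool.Agent.Q231.GPK.Upper
import Pool.Agent.Q231.GrTest
import Pool.Agent.ER.Rat

/-!
# The polynomial kernel for the partition into subsets in general position
-/

set_option autoImplicit false

namespace Pool.Agent.Q231.GPK

/-- a rational point as a point of the plane -/
noncomputable def toR (p : ℚ × ℚ) : ℝ × ℝ := ((p.1 : ℝ), (p.2 : ℝ))

open Classical in
/-- the configuration given by a list of rational points -/
noncomputable def pts (l : List (ℚ × ℚ)) : Finset (ℝ × ℝ) := (l.map toR).toFinset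

theorem toR_inj : Function.Injective toR := by
  intro p q h
  unfold toR at h
  rw [Prod.mk.injEq, Rat.cast_inj, Rat.cast_inj] at h
  exact Prod.ext h.1 h.2

theorem mem_pts {l : List (ℚ × ℚ)} {x : ℝ × ℝ} : x ∈ pts l ↔ ∃ p ∈ l, toR p = x := by
  classical
  unfold pts
  rw [List.mem_toFinset, List.mem_map]

theorem card_pts {l : List (ℚ × ℚ)} (h : l.Nodup) : (pts l).card = l.length := by
  classical
  unfold pts
  rw [List.toFinset_card_of_nodup (h.map toR_inj), List.length_map]

theorem pts_dedup (l : List (ℚ × ℚ)) : pts l.dedup = pts l := by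
  ext x
  simp only [mem_pts, List.mem_dedup]

/-- the rational determinant -/
def dq (p q r : ℚ × ℚ) : ℚ := (q.1 - p.1) * (r.2 - p.2) - (q.2 - p.2) * (r.1 - p.1)

theorem det_toR (p q r : ℚ × ℚ) : det (toR p) (toR q) (toR r) = ((dq p q r : ℚ) : ℝ) := by
  unfold det dq toR
  push_cast
  ring

/-- collinearity of rational points -/
def colB (p q r : ℚ × ℚ) : Bool := decide (dq p q r = 0)

theorem colB_iff (p q r : ℚ × ℚ) : colB p q r = true ↔ toR r ∈ lin (toR p) (toR q) := by
  unfold colB lin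
  rw [decide_eq_true_iff, Set.mem_ofPred_eq, det_toR, Rat.cast_eq_zero]

/-- the points of the list on the line through `p` and `q` -/
def fl (l : List (ℚ × ℚ)) (p q : ℚ × ℚ) : List (ℚ × ℚ) := l.filter fun r => colB p q r

/-- the line through `p` and `q` contains more than `t` points -/
def rich (t : ℕ) (l : List (ℚ × ℚ)) (p q : ℚ × ℚ) : Bool := (!decide (p = q)) && decide (t < (fl l p q).length)

/-- `p`, `q` are the first two points of the list on their line -/
def lead (l : List (ℚ × ℚ)) (p q : ℚ × ℚ) : Bool :=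
  decide ((fl l p q).head? = some p) && decide ((fl l p q).tail.head? = some q)

/-- the leading pairs of the rich lines -/
def Rl (t : ℕ) (l : List (ℚ × ℚ)) : List ((ℚ × ℚ) × (ℚ × ℚ)) :=
  (l ×ˢ l).filter fun z => rich t l z.1 z.2 && lead l z.1 z.2

/-- the points on no rich line -/
def Ul (t : ℕ) (l : List (ℚ × ℚ)) : List (ℚ × ℚ) := l.filter fun x => !(l.any fun y => rich t l x y)

/-- an upper bound of the line cover number -/
def kap (t : ℕ) (l : List (ℚ × ℚ)) : ℕ := (Rl t l).length + (Ul t l).length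

/-- the configuration is large compared with a bound of the line cover number -/
def crit (l : List (ℚ × ℚ)) : Bool :=
  (List.range l.length).any fun t => decide (290 * (kap (t + 1) l * kap (t + 1) l * kap (t + 1) l) ≤ l.length)

/-- no line contains more than `2 g` points -/
def okB (l : List (ℚ × ℚ)) (g : ℕ) : Bool :=
  l.all fun p => l.all fun q => decide (p = q) || decide ((fl l p q).length ≤ 2 * g)

/-- the kernel of a list without repetitions -/
def Kn (l : List (ℚ × ℚ)) (g : ℕ) : List (ℚ × ℚ) × ℕ :=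
  if crit l = true then (if okB l g = true then ([], 0) else ([(0, 0)], 0)) else (l, min g l.length)

/-- the kernel -/
def K (I : List (ℚ × ℚ) × ℕ) : List (ℚ × ℚ) × ℕ := Kn I.1.dedup I.2

/-! ## Correctness -/

theorem card_on {l : List (ℚ × ℚ)} (h : l.Nodup) {p q : ℚ × ℚ} :
    (on (pts l) (lin (toR p) (toR q))).card = (fl l p q).length := by
  have h1 : on (pts l) (lin (toR p) (toR q)) = pts (fl l p q) := by
    ext x
    rw [mem_on, mem_pts, mem_pts]
    constructor
    · rintro ⟨⟨r, hr, rfl⟩, hx⟩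
      exact ⟨r, List.mem_filter.2 ⟨hr, (colB_iff _ _ _).2 hx⟩, rfl⟩
    · rintro ⟨r, hr, rfl⟩
      obtain ⟨h2, h3⟩ := List.mem_filter.1 hr
      exact ⟨⟨r, h2, rfl⟩, (colB_iff _ _ _).1 h3⟩
  rw [h1]
  exact card_pts (h.filter _)

theorem fl_eq {l : List (ℚ × ℚ)} {p q p' q' : ℚ × ℚ} (h : lin (toR p) (toR q) = lin (toR p') (toR q')) :
    fl l p q = fl l p' q' := by
  unfold fl
  refine List.filter_congr fun r _ => ?_
  rw [Bool.eq_iff_iff, colB_iff, colB_iff, h]

theorem rich_iff {t : ℕ} {l : List (ℚ × ℚ)} {p q : ℚ × ℚ} :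
    rich t l p q = true ↔ p ≠ q ∧ t < (fl l p q).length := by
  unfold rich
  simp

theorem lead_iff {l : List (ℚ × ℚ)} {p q : ℚ × ℚ} :
    lead l p q = true ↔ (fl l p q).head? = some p ∧ (fl l p q).tail.head? = some q := by
  unfold lead
  simp

/-- (A) -/
theorem lc_le_kap {t : ℕ} (ht : 1 ≤ t) {l : List (ℚ × ℚ)} (h : l.Nodup) : LC (pts l) ≤ kap t l := by
  classical
  choose f hf hf2 using exists_line
  let L : Finset (Set (ℝ × ℝ)) := ((Rl t l).toFinset.image fun z => lin (toR z.1) (toR z.2)) ∪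
    ((Ul t l).toFinset.image fun x => f (toR x))
  have hRl : ∀ z ∈ Rl t l, z.1 ∈ l ∧ z.2 ∈ l ∧ rich t l z.1 z.2 = true ∧ lead l z.1 z.2 = true := by
    intro z hz
    unfold Rl at hz
    rw [List.mem_filter, Bool.and_eq_true, List.mem_product] at hz
    exact ⟨hz.1.1, hz.1.2, hz.2.1, hz.2.2⟩
  have hc : L.card ≤ kap t l := by
    refine (Finset.card_union_le _ _).trans ?_
    unfold kap
    exact Nat.add_le_add (Finset.card_image_le.trans (List.toFinset_card_le _))
      (Finset.card_image_le.trans (List.toFinset_card_le _))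
  refine (lc_le L ?_ ?_).trans hc
  · intro ℓ hℓ
    rcases Finset.mem_union.1 hℓ with hℓ | hℓ
    · obtain ⟨z, hz, rfl⟩ := Finset.mem_image.1 hℓ
      have h1 := (hRl z (List.mem_toFinset.1 hz)).2.2.1
      rw [rich_iff] at h1
      exact lin_isLine fun h => h1.1 (toR_inj h)
    · obtain ⟨x, _, rfl⟩ := Finset.mem_image.1 hℓ
      exact hf _
  · intro x hx
    obtain ⟨r, hr, rfl⟩ := mem_pts.1 hx
    by_cases hex : ∃ y ∈ l, rich t l r y = true
    · obtain ⟨y, hy, hry⟩ := hex
      rw [rich_iff] at hry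
      obtain ⟨hne, hlen⟩ := hry
      obtain ⟨p, q, rest, hpq⟩ : ∃ p q rest, fl l r y = p :: q :: rest := by
        match hfl : fl l r y with
        | [] => rw [hfl] at hlen; simp at hlen
        | [a] => rw [hfl] at hlen; simp at hlen; omega
        | a :: b :: c => exact ⟨a, b, c, rfl⟩
      have hnd : (fl l r y).Nodup := h.filter _
      have hpne : p ≠ q := by
        rw [hpq] at hnd
        intro h'
        subst h'
        simp at hnd
      have hp : p ∈ fl l r y := by rw [hpq]; simp
      have hq : q ∈ fl l r y := by rw [hpq]; simp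
      obtain ⟨hpl, hpc⟩ := List.mem_filter.1 hp
      obtain ⟨hql, hqc⟩ := List.mem_filter.1 hq
      rw [colB_iff] at hpc hqc
      have hlin : lin (toR r) (toR y) = lin (toR p) (toR q) :=
        eq_lin (lin_isLine fun h => hne (toR_inj h)) (fun h => hpne (toR_inj h)) hpc hqc
      have hfl : fl l p q = p :: q :: rest := by rw [← hpq, fl_eq hlin]
      refine ⟨lin (toR p) (toR q), Finset.mem_union_left _ (Finset.mem_image.2 ⟨(p, q), ?_, rfl⟩), ?_⟩
      · rw [List.mem_toFinset]
        unfold Rl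
        rw [List.mem_filter, Bool.and_eq_true, List.mem_product, rich_iff, lead_iff]
        refine ⟨⟨hpl, hql⟩, ⟨hpne, ?_⟩, ?_, ?_⟩
        · rw [← fl_eq hlin]
          exact hlen
        · simp only [hfl]
          rfl
        · simp only [hfl]
          rfl
      · rw [← hlin]
        exact left_mem_lin _ _
    · push Not at hex
      refine ⟨f (toR r), Finset.mem_union_right _ (Finset.mem_image.2 ⟨r, ?_, rfl⟩), hf2 _⟩
      rw [List.mem_toFinset]
      unfold Ul
      rw [List.mem_filter]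
      refine ⟨hr, ?_⟩
      rw [Bool.not_eq_true', List.any_eq_false]
      intro y hy
      exact hex y hy

theorem lc_pos {S : Finset (ℝ × ℝ)} (h : S.Nonempty) : 1 ≤ LC S := by
  obtain ⟨L, _, h2, h3⟩ := exists_lc S
  obtain ⟨x, hx⟩ := h
  obtain ⟨ℓ, hℓ, _⟩ := h2 x hx
  rw [← h3]
  exact Finset.card_pos.2 ⟨ℓ, hℓ⟩

theorem lc_le_card (S : Finset (ℝ × ℝ)) : LC S ≤ S.card := by
  classical
  choose f hf hf2 using exists_line
  refine (lc_le (S.image f) ?_ ?_).trans Finset.card_image_le
  · intro ℓ hℓ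
    obtain ⟨p, _, rfl⟩ := Finset.mem_image.1 hℓ
    exact hf p
  · intro p hp
    exact ⟨f p, Finset.mem_image_of_mem f hp, hf2 p⟩

/-- (B) -/
theorem kap_le {l : List (ℚ × ℚ)} (h : l.Nodup) (hne : 1 ≤ LC (pts l)) :
    kap (LC (pts l)) l ≤ LC (pts l) + LC (pts l) ^ 2 := by
  classical
  obtain ⟨L, h1, h2, h3⟩ := exists_lc (pts l)
  set k := LC (pts l) with hk
  unfold kap
  refine Nat.add_le_add ?_ ?_
  · -- the rich lines belong to the cover
    have hnd : (Rl k l).Nodup := (h.product h).filter _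
    rw [← List.toFinset_card_of_nodup hnd]
    refine le_of_le_of_eq ?_ h3
    have hprop : ∀ z ∈ Rl k l, rich k l z.1 z.2 = true ∧ lead l z.1 z.2 = true := by
      intro z hz
      unfold Rl at hz
      rw [List.mem_filter, Bool.and_eq_true] at hz
      exact hz.2
    refine Finset.card_le_card_of_injOn (fun z => lin (toR z.1) (toR z.2)) ?_ ?_
    · intro z hz
      have hz' := (hprop z (List.mem_toFinset.1 hz)).1
      rw [rich_iff] at hz'
      change lin (toR z.1) (toR z.2) ∈ L
      have hzl : IsLine (lin (toR z.1) (toR z.2)) := lin_isLine fun h => hz'.1 (toR_inj h)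
      by_contra hnot
      have h4 : on (pts l) (lin (toR z.1) (toR z.2)) ⊆
          L.biUnion fun ℓ => (on (pts l) (lin (toR z.1) (toR z.2))).filter fun x => x ∈ ℓ := by
        intro x hx
        obtain ⟨ℓ, hℓ, hxℓ⟩ := h2 x (mem_on.1 hx).1
        exact Finset.mem_biUnion.2 ⟨ℓ, hℓ, Finset.mem_filter.2 ⟨hx, hxℓ⟩⟩
      have h5 : (L.biUnion fun ℓ => (on (pts l) (lin (toR z.1) (toR z.2))).filter fun x => x ∈ ℓ).card ≤ L.card • 1 := by
        refine Finset.card_biUnion_le.trans (Finset.sum_le_card_nsmul _ _ 1 fun ℓ hℓ => ?_)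
        rw [Finset.card_le_one]
        intro a ha b hb
        rw [Finset.mem_filter, mem_on] at ha hb
        by_contra hab
        have := line_eq hzl (h1 ℓ hℓ) hab ha.1.2 hb.1.2 ha.2 hb.2
        exact hnot (this ▸ hℓ)
      have h6 := (Finset.card_le_card h4).trans h5
      rw [card_on h, smul_eq_mul, mul_one, h3] at h6
      omega
    · intro z hz z' hz' hzz
      have ha := (hprop z (List.mem_toFinset.1 hz)).2
      have hb := (hprop z' (List.mem_toFinset.1 hz')).2
      rw [lead_iff] at ha hb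
      have he : fl l z.1 z.2 = fl l z'.1 z'.2 := fl_eq hzz
      rw [he] at ha
      exact Prod.ext (Option.some.inj (ha.1.symm.trans hb.1)) (Option.some.inj (ha.2.symm.trans hb.2))
  · have hnd : (Ul k l).Nodup := h.filter _
    have hcard : (Ul k l).length = (pts (Ul k l)).card := (card_pts hnd).symm
    rw [hcard, pow_two]
    have h4 : pts (Ul k l) ⊆ L.biUnion fun ℓ => on (pts (Ul k l)) ℓ := by
      intro x hx
      have hxl : x ∈ pts l := by
        obtain ⟨r, hr, rfl⟩ := mem_pts.1 hx
        exact mem_pts.2 ⟨r, (List.mem_filter.1 hr).1, rfl⟩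
      obtain ⟨ℓ, hℓ, hxℓ⟩ := h2 x hxl
      exact Finset.mem_biUnion.2 ⟨ℓ, hℓ, mem_on.2 ⟨hx, hxℓ⟩⟩
    refine (Finset.card_le_card h4).trans (Finset.card_biUnion_le.trans ?_)
    refine (Finset.sum_le_card_nsmul _ _ k fun ℓ hℓ => ?_).trans (by rw [smul_eq_mul, h3])
    by_contra hgt
    push Not at hgt
    obtain ⟨a, ha, b, hb, hab⟩ := Finset.one_lt_card.1 (show 1 < (on (pts (Ul k l)) ℓ).card by omega)
    rw [mem_on, mem_pts] at ha hb
    obtain ⟨⟨p, hp, rfl⟩, hpℓ⟩ := ha
    obtain ⟨⟨q, hq, rfl⟩, hqℓ⟩ := hb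
    have hpq : p ≠ q := fun h => hab (by rw [h])
    have hℓe : ℓ = lin (toR p) (toR q) := eq_lin (h1 ℓ hℓ) hab hpℓ hqℓ
    unfold Ul at hp
    rw [List.mem_filter, Bool.not_eq_true', List.any_eq_false] at hp
    refine hp.2 q (List.mem_filter.1 hq).1 ?_
    rw [rich_iff]
    refine ⟨hpq, ?_⟩
    rw [← card_on h, ← hℓe]
    refine lt_of_lt_of_le hgt (Finset.card_le_card ?_)
    intro x hx
    rw [mem_on] at hx ⊢
    refine ⟨?_, hx.2⟩
    obtain ⟨r, hr, rfl⟩ := mem_pts.1 hx.1
    exact mem_pts.2 ⟨r, (List.mem_filter.1 hr).1, rfl⟩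

theorem okB_iff {l : List (ℚ × ℚ)} (h : l.Nodup) (hl : 2 ≤ l.length) (g : ℕ) :
    okB l g = true ↔ ONLINE (pts l) ≤ 2 * g := by
  have hpair : ∀ p ∈ l, ∀ q ∈ l, p ≠ q → (okB l g = true → (fl l p q).length ≤ 2 * g) := by
    intro p hp q hq hpq hok
    unfold okB at hok
    rw [List.all_eq_true] at hok
    have h1 := hok p hp
    rw [List.all_eq_true] at h1
    have h2 := h1 q hq
    rw [Bool.or_eq_true, decide_eq_true_iff, decide_eq_true_iff] at h2
    exact h2.resolve_left hpq
  constructor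
  · intro hok
    obtain ⟨ℓ, hℓ, hcard⟩ := exists_online (pts l)
    -- the maximum is at least two
    have h2 : 2 ≤ ONLINE (pts l) := by
      have h3 : 1 < (pts l).card := by rw [card_pts h]; omega
      obtain ⟨a, ha, b, hb, hab⟩ := Finset.one_lt_card.1 h3
      refine le_trans ?_ (le_online (lin_isLine hab))
      exact Finset.one_lt_card.2 ⟨a, mem_on.2 ⟨ha, left_mem_lin _ _⟩, b, mem_on.2 ⟨hb, right_mem_lin _ _⟩, hab⟩
    obtain ⟨a, ha, b, hb, hab⟩ := Finset.one_lt_card.1 (show 1 < (on (pts l) ℓ).card by omega)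
    rw [mem_on, mem_pts] at ha hb
    obtain ⟨⟨p, hp, rfl⟩, hpℓ⟩ := ha
    obtain ⟨⟨q, hq, rfl⟩, hqℓ⟩ := hb
    have hpq : p ≠ q := fun h => hab (by rw [h])
    rw [← hcard, eq_lin hℓ hab hpℓ hqℓ, card_on h]
    exact hpair p hp q hq hpq hok
  · intro hon
    unfold okB
    rw [List.all_eq_true]
    intro p hp
    rw [List.all_eq_true]
    intro q hq
    rw [Bool.or_eq_true, decide_eq_true_iff, decide_eq_true_iff]
    by_cases hpq : p = q
    · exact Or.inl hpq
    · right
      rw [← card_on h]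
      exact (le_online (lin_isLine fun h => hpq (toR_inj h))).trans hon

/-- the kernel is correct and polynomial -/
theorem kernel (l : List (ℚ × ℚ)) (h : l.Nodup) (g : ℕ) :
    (GP (pts (Kn l g).1) ≤ (Kn l g).2 ↔ GP (pts l) ≤ g) ∧
    (Kn l g).1.length ≤ 290 * (LC (pts l) + LC (pts l) ^ 2) ^ 3 ∧
    (Kn l g).2 ≤ 290 * (LC (pts l) + LC (pts l) ^ 2) ^ 3 := by
  unfold Kn
  by_cases hcr : crit l = true
  · rw [if_pos hcr]
    have hcr' := hcr
    unfold crit at hcr'
    rw [List.any_eq_true] at hcr'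
    obtain ⟨t, ht, hk⟩ := hcr'
    rw [decide_eq_true_iff] at hk
    rw [List.mem_range] at ht
    have hlc := lc_le_kap (t := t + 1) (by omega) h
    have hne : (pts l).Nonempty := by
      rw [← Finset.card_pos, card_pts h]
      omega
    have hlc1 := lc_pos hne
    have hkap : 1 ≤ kap (t + 1) l := hlc1.trans hlc
    have h3 : kap (t + 1) l * kap (t + 1) l * kap (t + 1) l = kap (t + 1) l ^ 3 := by ring
    have h3' : 1 ≤ kap (t + 1) l ^ 3 := Nat.one_le_pow _ _ hkap
    have hlen : 2 ≤ l.length := by omega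
    have hgp := gp_eq_of_large hlc (by rw [card_pts h, ← h3]; exact hk)
    have hiff : GP (pts l) ≤ g ↔ ONLINE (pts l) ≤ 2 * g := by
      rw [hgp]
      omega
    have hpoly : 1 ≤ 290 * (LC (pts l) + LC (pts l) ^ 2) ^ 3 := by
      have : 1 ≤ (LC (pts l) + LC (pts l) ^ 2) ^ 3 := Nat.one_le_pow _ _ (by omega)
      omega
    by_cases hok : okB l g = true
    · rw [if_pos hok]
      refine ⟨?_, by simp, by simp⟩
      rw [hiff, ← okB_iff h hlen]
      simp only [hok, iff_true]
      have := gp_le_card (pts [])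
      rw [card_pts List.nodup_nil] at this
      exact this
    · rw [if_neg hok]
      refine ⟨?_, by simpa using hpoly, by simp⟩
      rw [hiff, ← okB_iff h hlen]
      refine ⟨fun h0 => ?_, fun h0 => absurd h0 hok⟩
      exfalso
      have h1 := online_le_gp (pts [((0 : ℚ), (0 : ℚ))])
      obtain ⟨ℓ, hℓ, hmem⟩ := exists_line (toR (0, 0))
      have h2 := le_online (S := pts [((0 : ℚ), (0 : ℚ))]) hℓ
      have h4 : 0 < (on (pts [((0 : ℚ), (0 : ℚ))]) ℓ).card :=
        Finset.card_pos.2 ⟨toR (0, 0), mem_on.2 ⟨mem_pts.2 ⟨(0, 0), by simp, rfl⟩, hmem⟩⟩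
      simp only at h0
      omega
  · rw [if_neg hcr]
    have hgc := gp_le_card (pts l)
    rw [card_pts h] at hgc
    have hsize : l.length ≤ 290 * (LC (pts l) + LC (pts l) ^ 2) ^ 3 := by
      rcases Nat.eq_zero_or_pos l.length with h0 | hpos
      · omega
      · by_contra hbig
        push Not at hbig
        apply hcr
        have hne : (pts l).Nonempty := by
          rw [← Finset.card_pos, card_pts h]
          exact hpos
        have hlc1 := lc_pos hne
        have hlcn := lc_le_card (pts l)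
        rw [card_pts h] at hlcn
        unfold crit
        rw [List.any_eq_true]
        refine ⟨LC (pts l) - 1, List.mem_range.2 (by omega), ?_⟩
        rw [decide_eq_true_iff, Nat.sub_add_cancel hlc1]
        have h1 := kap_le h hlc1
        have h2 : kap (LC (pts l)) l ^ 3 ≤ (LC (pts l) + LC (pts l) ^ 2) ^ 3 := Nat.pow_le_pow_left h1 3
        have h3 : kap (LC (pts l)) l * kap (LC (pts l)) l * kap (LC (pts l)) l = kap (LC (pts l)) l ^ 3 := by ring
        rw [h3]
        omega
    refine ⟨?_, hsize, ?_⟩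
    · simp only [le_min_iff]
      omega
    · simp only
      omega

end Pool.Agent.Q231.GPK
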