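import Pool.Agent.Q110.HC.LLL

/-!
# Colouring points on disjoint lines: the local lemma

`P` is a finite set of points, each on one of `k` lines (`ln`), each line carries at most `2 m` points (`e` numbers the points
of a line).  `bad X` are the collinear triples.  If `m ≥ 144 k²` there is a colouring of `P` with `m` colours such that every
colour is used at most twice on each line, and no bad triple of points on three different lines has one colour.
-/

set_option autoImplicit false

namespace Pool.Agent.Q231.GPK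

open Finset

set_option linter.unusedSectionVars false

section

variable {P : Type} [Fintype P] [DecidableEq P] {k m : ℕ}

/-- the bad events: a bad triple on three lines and three slots of the same colour -/
def Ev (ln : P → Fin k) (bad : (Fin 3 → P) → Prop) (m : ℕ) : Type :=
  {t : (Fin 3 → P) × (Fin 3 → Fin (2 * m)) // bad t.1 ∧ Function.Injective (fun u => ln (t.1 u)) ∧
    ∀ u v, (t.2 u).val / 2 = (t.2 v).val / 2}

noncomputable instance (ln : P → Fin k) (bad : (Fin 3 → P) → Prop) (m : ℕ) : Fintype (Ev ln bad m) := by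
  classical
  unfold Ev
  infer_instance

noncomputable instance (ln : P → Fin k) (bad : (Fin 3 → P) → Prop) (m : ℕ) : DecidableEq (Ev ln bad m) :=
  Classical.decEq _

/-- two events share a point, or a slot of a line -/
def Conf {ln : P → Fin k} {bad : (Fin 3 → P) → Prop} (t t' : Ev ln bad m) (u v : Fin 3) : Prop :=
  ln (t.1.1 u) = ln (t'.1.1 v) ∧ (t.1.1 u = t'.1.1 v ∨ t.1.2 u = t'.1.2 v)

open Classical in
/-- the neighbours -/
noncomputable def nbr {ln : P → Fin k} {bad : (Fin 3 → P) → Prop} (t : Ev ln bad m) : Finset (Ev ln bad m) :=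
  Finset.univ.filter fun t' => ∃ u v, Conf t t' u v

open Classical in
/-- the set of assignments in an event -/
noncomputable def evs {ln : P → Fin k} {bad : (Fin 3 → P) → Prop} (e : P → Fin (2 * m)) (t : Ev ln bad m) :
    Finset (Fin k → Equiv.Perm (Fin (2 * m))) :=
  Finset.univ.filter fun σ => ∀ u, σ (ln (t.1.1 u)) (e (t.1.1 u)) = t.1.2 u

theorem card_P {ln : P → Fin k} {e : P → Fin (2 * m)} (hinj : ∀ x y, ln x = ln y → e x = e y → x = y) :
    Fintype.card P ≤ k * (2 * m) := by
  have h := Fintype.card_le_of_injective (fun x => (ln x, e x)) (fun x y h => by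
    simp only [Prod.mk.injEq] at h
    exact hinj x y h.1 h.2)
  simpa using h

theorem fin3 : ∀ v w : Fin 3, w = v ∨ w = v + 1 ∨ w = v + 2 := by decide

/-- the number of neighbours -/
theorem card_nbr {ln : P → Fin k} {bad : (Fin 3 → P) → Prop} {e : P → Fin (2 * m)}
    (hinj : ∀ x y, ln x = ln y → e x = e y → x = y)
    (huniq : ∀ (v : Fin 3) (X X' : Fin 3 → P), bad X → bad X' → Function.Injective (fun u => ln (X u)) →
      Function.Injective (fun u => ln (X' u)) → X v = X' v → X (v + 1) = X' (v + 1) →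
      ln (X (v + 2)) = ln (X' (v + 2)) → X (v + 2) = X' (v + 2))
    (t : Ev ln bad m) : (nbr t).card ≤ 288 * k ^ 2 * m ^ 2 := by
  classical
  have hex : ∀ t' : Ev ln bad m, ∃ uv : Fin 3 × Fin 3, t' ∈ nbr t → Conf t t' uv.1 uv.2 := by
    intro t'
    by_cases h : t' ∈ nbr t
    · obtain ⟨u, v, huv⟩ := (Finset.mem_filter.1 h).2
      exact ⟨(u, v), fun _ => huv⟩
    · exact ⟨(0, 0), fun h' => absurd h' h⟩
  choose uv huv using hex
  let code : Ev ln bad m → (Fin 3 × Fin 3) × Bool × Fin (2 * m) × P × Fin k × Fin 2 × Fin 2 := fun t' =>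
    (uv t', decide (t.1.1 (uv t').1 = t'.1.1 (uv t').2),
      if t.1.1 (uv t').1 = t'.1.1 (uv t').2 then t'.1.2 (uv t').2 else e (t'.1.1 (uv t').2),
      t'.1.1 ((uv t').2 + 1), ln (t'.1.1 ((uv t').2 + 2)),
      ⟨(t'.1.2 ((uv t').2 + 1)).val % 2, Nat.mod_lt _ (by norm_num)⟩,
      ⟨(t'.1.2 ((uv t').2 + 2)).val % 2, Nat.mod_lt _ (by norm_num)⟩)
  have hcode : Set.InjOn code (nbr t : Set (Ev ln bad m)) := by
    intro a ha b hb hab
    have hCa := huv a ha
    have hCb := huv b hb
    simp only [code, Prod.mk.injEq, decide_eq_decide, Fin.mk.injEq] at hab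
    obtain ⟨h1, h2, h3, h4, h5, h6, h7⟩ := hab
    rw [h1] at hCa h2 h3 h4 h5 h6 h7
    generalize (uv b).1 = u at *
    generalize (uv b).2 = v at *
    -- the point and the slot at `v`
    have hpt : a.1.1 v = b.1.1 v ∧ a.1.2 v = b.1.2 v := by
      by_cases hc : t.1.1 u = a.1.1 v
      · rw [if_pos hc, if_pos (h2.1 hc)] at h3
        exact ⟨hc.symm.trans (h2.1 hc), h3⟩
      · have hc' : ¬ t.1.1 u = b.1.1 v := fun h => hc (h2.2 h)
        rw [if_neg hc, if_neg hc'] at h3
        refine ⟨hinj _ _ (hCa.1.symm.trans hCb.1) h3, ?_⟩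
        rcases hCa.2 with h | h
        · exact absurd h hc
        · rcases hCb.2 with h' | h'
          · exact absurd h' hc'
          · rw [← h, ← h']
    have hp2 : a.1.1 (v + 2) = b.1.1 (v + 2) :=
      huniq v _ _ a.2.1 b.2.1 a.2.2.1 b.2.2.1 hpt.1 h4 h5
    have hs1 : a.1.2 (v + 1) = b.1.2 (v + 1) := by
      apply Fin.ext
      have e1 := a.2.2.2 (v + 1) v
      have e2 := b.2.2.2 (v + 1) v
      have e3 := congrArg Fin.val hpt.2
      omega
    have hs2 : a.1.2 (v + 2) = b.1.2 (v + 2) := by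
      apply Fin.ext
      have e1 := a.2.2.2 (v + 2) v
      have e2 := b.2.2.2 (v + 2) v
      have e3 := congrArg Fin.val hpt.2
      omega
    have hall : ∀ w : Fin 3, w = v ∨ w = v + 1 ∨ w = v + 2 := fun w => fin3 v w
    apply Subtype.ext
    apply Prod.ext
    · funext w
      rcases hall w with rfl | rfl | rfl
      · exact hpt.1
      · exact h4
      · exact hp2
    · funext w
      rcases hall w with rfl | rfl | rfl
      · exact hpt.2
      · exact hs1
      · exact hs2
  have h1 := Finset.card_le_card_of_injOn code (fun a _ => Finset.mem_univ (code a)) hcode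
  refine h1.trans ?_
  rw [Finset.card_univ]
  simp only [Fintype.card_prod, Fintype.card_fin, Fintype.card_bool]
  have h2 := card_P hinj
  calc 3 * 3 * (2 * (2 * m * (Fintype.card P * (k * (2 * 2)))))
      ≤ 3 * 3 * (2 * (2 * m * ((k * (2 * m)) * (k * (2 * 2))))) := by gcongr
    _ = 288 * k ^ 2 * m ^ 2 := by ring

/-- the switching -/
theorem switch {ln : P → Fin k} {bad : (Fin 3 → P) → Prop} {e : P → Fin (2 * m)}
    (hinj : ∀ x y, ln x = ln y → e x = e y → x = y)
    (t : Ev ln bad m) (T : Finset (Ev ln bad m)) (hT : ∀ j ∈ T, j ∉ nbr t) :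
    (2 * m) ^ 3 * ((evs e t).filter (fun σ => ∀ j ∈ T, σ ∉ evs e j)).card ≤
      (Finset.univ.filter (fun σ => ∀ j ∈ T, σ ∉ evs e j)).card := by
  classical
  have hcard : (2 * m) ^ 3 = (Finset.univ : Finset (Fin 3 → Fin (2 * m))).card := by
    rw [Finset.card_univ, Fintype.card_fun, Fintype.card_fin, Fintype.card_fin]
  let tau : (Fin 3 → Fin (2 * m)) → Fin k → Equiv.Perm (Fin (2 * m)) := fun w i =>
    if h : ∃ u, ln (t.1.1 u) = i then Equiv.swap (t.1.2 h.choose) (w h.choose) else 1
  have htau : ∀ w u, tau w (ln (t.1.1 u)) = Equiv.swap (t.1.2 u) (w u) := by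
    intro w u
    have h : ∃ u', ln (t.1.1 u') = ln (t.1.1 u) := ⟨u, rfl⟩
    have h2 : h.choose = u := t.2.2.1 h.choose_spec
    simp only [tau]
    rw [dif_pos h, h2]
  rw [hcard, ← Finset.card_product]
  refine Finset.card_le_card_of_injOn (fun p => tau p.1 * p.2) ?_ ?_
  · rintro ⟨w, σ⟩ h
    simp only [Finset.coe_product, Finset.coe_univ, Set.mem_prod, Set.mem_univ, true_and,
      Finset.coe_filter, Finset.mem_univ, Set.mem_ofPred_eq, evs, Finset.mem_filter] at h ⊢
    obtain ⟨h1, h2⟩ := h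
    intro j hj hcon
    refine h2 j hj fun v => ?_
    have h3 := hcon v
    rw [Pi.mul_apply, Equiv.Perm.mul_apply] at h3
    by_cases hu : ∃ u, ln (t.1.1 u) = ln (j.1.1 v)
    · obtain ⟨u, hu⟩ := hu
      rw [← hu, htau] at h3
      rw [← hu]
      have hnc : ¬ Conf t j u v := fun hc => hT j hj (Finset.mem_filter.2 ⟨Finset.mem_univ _, u, v, hc⟩)
      have hne1 : t.1.1 u ≠ j.1.1 v := fun h => hnc ⟨hu, Or.inl h⟩
      have hne2 : t.1.2 u ≠ j.1.2 v := fun h => hnc ⟨hu, Or.inr h⟩
      have hb : σ (ln (t.1.1 u)) (e (j.1.1 v)) ≠ t.1.2 u := by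
        intro h
        rw [← h1 u] at h
        exact hne1 (hinj _ _ hu ((σ _).injective h).symm)
      by_cases hw : σ (ln (t.1.1 u)) (e (j.1.1 v)) = w u
      · rw [hw, Equiv.swap_apply_right] at h3
        exact absurd h3 hne2
      · rwa [Equiv.swap_apply_of_ne_of_ne hb hw] at h3
    · simp only [tau] at h3
      rw [dif_neg hu, Equiv.Perm.one_apply] at h3
      exact h3
  · rintro ⟨w, σ⟩ h ⟨w', σ'⟩ h' he
    simp only [Finset.coe_product, Finset.coe_univ, Set.mem_prod, Set.mem_univ, true_and,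
      Finset.coe_filter, Finset.mem_univ, Set.mem_ofPred_eq, evs, Finset.mem_filter] at h h'
    simp only at he
    have hw : w = w' := by
      funext u
      have h1 := congrFun he (ln (t.1.1 u))
      have h2 := congrArg (fun f => f (e (t.1.1 u))) h1
      simp only [Pi.mul_apply, Equiv.Perm.mul_apply, h.1 u, h'.1 u, htau, Equiv.swap_apply_left] at h2
      exact h2
    subst hw
    rw [mul_left_cancel he]

/-- the colouring -/
theorem colouring (hk : 0 < k) (hm : 144 * k ^ 2 ≤ m) {ln : P → Fin k} {bad : (Fin 3 → P) → Prop} {e : P → Fin (2 * m)}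
    (hinj : ∀ x y, ln x = ln y → e x = e y → x = y)
    (huniq : ∀ (v : Fin 3) (X X' : Fin 3 → P), bad X → bad X' → Function.Injective (fun u => ln (X u)) →
      Function.Injective (fun u => ln (X' u)) → X v = X' v → X (v + 1) = X' (v + 1) →
      ln (X (v + 2)) = ln (X' (v + 2)) → X (v + 2) = X' (v + 2)) :
    ∃ c : P → Fin m,
      (∀ x y z, x ≠ y → y ≠ z → x ≠ z → ln x = ln y → ln y = ln z → c x = c y → c y = c z → False) ∧
      ∀ X : Fin 3 → P, bad X → Function.Injective (fun u => ln (X u)) → ¬ ∀ u v, c (X u) = c (X v) := by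
  classical
  have hm0 : 0 < m := by
    have : 0 < k ^ 2 := by positivity
    omega
  have hkm : 0 < k ^ 2 * m ^ 2 := by positivity
  obtain ⟨σ, hσ⟩ := Q110.HC.lopsided (Ω := Fin k → Equiv.Perm (Fin (2 * m))) (ι := Ev ln bad m)
    (fun t => evs e t) (fun t => nbr t) ((2 * m) ^ 3) (288 * k ^ 2 * m ^ 2) (by nlinarith)
    (fun t => card_nbr hinj huniq t) (by
      have : 144 * k ^ 2 * m ^ 2 ≤ m * m ^ 2 := Nat.mul_le_mul_right _ hm
      nlinarith) (fun t T hT => switch hinj t T hT)
  refine ⟨fun x => ⟨(σ (ln x) (e x)).val / 2, by have := (σ (ln x) (e x)).isLt; omega⟩, ?_, ?_⟩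
  · intro x y z hxy hyz hxz h1 h2 h3 h4
    simp only [Fin.mk.injEq] at h3 h4
    have g : ∀ a b, a ≠ b → ln a = ln b → (σ (ln a) (e a)).val ≠ (σ (ln b) (e b)).val := by
      intro a b hab hl h
      rw [hl] at h
      exact hab (hinj a b hl ((σ _).injective (Fin.ext h)))
    have g1 := g x y hxy h1
    have g2 := g y z hyz h2
    have g3 := g x z hxz (h1.trans h2)
    omega
  · intro X hX hXi hc
    simp only [Fin.mk.injEq] at hc
    refine hσ ⟨(X, fun u => σ (ln (X u)) (e (X u))), hX, hXi, fun u v => hc u v⟩ ?_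
    exact Finset.mem_filter.2 ⟨Finset.mem_univ _, fun u => rfl⟩

end

end Pool.Agent.Q231.GPK
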