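import Pool.Agent.Q231.GPK.Upper

/-!
# The lower bound: the grid with three points at infinity
-/

set_option autoImplicit false

namespace Pool.Agent.Q231.GPK

/-- the grid point `(i, j)` after a projective transformation -/
noncomputable def gp (i j : ℕ) : ℝ × ℝ := ((i : ℝ) / (i + 2 * j + 1), (j : ℝ) / (i + 2 * j + 1))

/-- the points at infinity of the rows, the columns and the diagonals -/
noncomputable def pH : ℝ × ℝ := (1, 0)
/-- the point at infinity of the columns -/
noncomputable def pV : ℝ × ℝ := (0, 1 / 2)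
/-- the point at infinity of the diagonals -/
noncomputable def pD : ℝ × ℝ := (1 / 3, 1 / 3)

/-- the row `j` -/
def rowl (j : ℕ) : Set (ℝ × ℝ) := {p | (j : ℝ) * p.1 + (1 + 2 * j : ℝ) * p.2 = j}
/-- the column `i` -/
def coll (i : ℕ) : Set (ℝ × ℝ) := {p | (1 + i : ℝ) * p.1 + (2 * i : ℝ) * p.2 = i}
/-- the diagonal `i - j = c` -/
def dial (c : ℤ) : Set (ℝ × ℝ) := {p | (1 + c : ℝ) * p.1 + (2 * c - 1 : ℝ) * p.2 = c}
/-- the line at infinity -/
def infl : Set (ℝ × ℝ) := {p | (1 : ℝ) * p.1 + (2 : ℝ) * p.2 = 1}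

theorem rowl_line (j : ℕ) : IsLine (rowl j) := by
  refine ⟨j, 1 + 2 * j, j, Or.inr ?_, rfl⟩
  positivity

theorem coll_line (i : ℕ) : IsLine (coll i) := by
  refine ⟨1 + i, 2 * i, i, Or.inl ?_, rfl⟩
  positivity

theorem dial_line (c : ℤ) : IsLine (dial c) := by
  refine ⟨1 + c, 2 * c - 1, c, ?_, rfl⟩
  by_contra h
  push Not at h
  linarith [h.1, h.2]

theorem infl_line : IsLine infl := ⟨1, 2, 1, Or.inl one_ne_zero, rfl⟩

theorem w_pos (i j : ℕ) : (0 : ℝ) < i + 2 * j + 1 := by positivity

theorem gp_rowl (i j j' : ℕ) : gp i j ∈ rowl j' ↔ j = j' := by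
  have hw := w_pos i j
  unfold gp rowl
  rw [Set.mem_ofPred_eq]
  simp only
  rw [mul_div_assoc', mul_div_assoc', ← add_div, div_eq_iff hw.ne']
  constructor
  · intro h
    have : (j : ℝ) = j' := by linear_combination h
    exact_mod_cast this
  · rintro rfl
    ring

theorem gp_coll (i j i' : ℕ) : gp i j ∈ coll i' ↔ i = i' := by
  have hw := w_pos i j
  unfold gp coll
  rw [Set.mem_ofPred_eq]
  simp only
  rw [mul_div_assoc', mul_div_assoc', ← add_div, div_eq_iff hw.ne']
  constructor
  · intro h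
    have : (i : ℝ) = i' := by linear_combination h
    exact_mod_cast this
  · rintro rfl
    ring

theorem gp_dial (i j : ℕ) (c : ℤ) (h : (i : ℤ) - j = c) : gp i j ∈ dial c := by
  have hw := w_pos i j
  have h' : (i : ℝ) - j = c := by exact_mod_cast h
  unfold gp dial
  rw [Set.mem_ofPred_eq]
  simp only
  rw [mul_div_assoc', mul_div_assoc', ← add_div, div_eq_iff hw.ne']
  linear_combination h'

theorem gp_infl (i j : ℕ) : gp i j ∉ infl := by
  have hw := w_pos i j
  unfold gp infl
  rw [Set.mem_ofPred_eq]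
  simp only
  rw [mul_div_assoc', mul_div_assoc', ← add_div, div_eq_iff hw.ne']
  intro h
  linarith

theorem gp_inj {i j i' j' : ℕ} (h : gp i j = gp i' j') : i = i' ∧ j = j' := by
  refine ⟨?_, ?_⟩
  · rw [← gp_coll i j i', h, gp_coll]
  · rw [← gp_rowl i j j', h, gp_rowl]

theorem pH_row (j : ℕ) : pH ∈ rowl j := by simp [pH, rowl]
theorem pV_row (j : ℕ) : pV ∉ rowl j := by
  unfold pV rowl
  rw [Set.mem_ofPred_eq]
  simp only
  intro h
  linarith
theorem pD_row (j : ℕ) : pD ∉ rowl j := by
  unfold pD rowl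
  rw [Set.mem_ofPred_eq]
  simp only
  intro h
  linarith
theorem pV_col (i : ℕ) : pV ∈ coll i := by
  unfold pV coll
  rw [Set.mem_ofPred_eq]
  simp only
  ring
theorem pH_col (i : ℕ) : pH ∉ coll i := by
  unfold pH coll
  rw [Set.mem_ofPred_eq]
  simp only
  intro h
  linarith
theorem pD_col (i : ℕ) : pD ∉ coll i := by
  unfold pD coll
  rw [Set.mem_ofPred_eq]
  simp only
  intro h
  linarith
theorem pD_dia (c : ℤ) : pD ∈ dial c := by
  unfold pD dial
  rw [Set.mem_ofPred_eq]
  simp only
  ring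
theorem pH_inf : pH ∈ infl := by simp [pH, infl]
theorem pV_inf : pV ∈ infl := by simp [pV, infl]
theorem pD_inf : pD ∈ infl := by
  unfold pD infl
  rw [Set.mem_ofPred_eq]
  norm_num
theorem pH_ne_pV : pH ≠ pV := by
  intro h
  have := congrArg Prod.fst h
  norm_num [pH, pV] at this
theorem pV_ne_pD : pV ≠ pD := by
  intro h
  have := congrArg Prod.fst h
  norm_num [pD, pV] at this
theorem pH_ne_pD : pH ≠ pD := by
  intro h
  have := congrArg Prod.fst h
  norm_num [pH, pD] at this

open Classical in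
/-- the configuration -/
noncomputable def SG (N : ℕ) : Finset (ℝ × ℝ) :=
  (Finset.range N ×ˢ Finset.range N).image (fun z => gp z.1 z.2) ∪ {pH, pV, pD}

theorem mem_SG {N : ℕ} {x : ℝ × ℝ} : x ∈ SG N ↔ (∃ i j, i < N ∧ j < N ∧ gp i j = x) ∨ x = pH ∨ x = pV ∨ x = pD := by
  classical
  unfold SG
  rw [Finset.mem_union, Finset.mem_image, Finset.mem_insert, Finset.mem_insert, Finset.mem_singleton]
  constructor
  · rintro (⟨z, hz, rfl⟩ | h)
    · rw [Finset.mem_product, Finset.mem_range, Finset.mem_range] at hz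
      exact Or.inl ⟨z.1, z.2, hz.1, hz.2, rfl⟩
    · exact Or.inr h
  · rintro (⟨i, j, hi, hj, rfl⟩ | h)
    · exact Or.inl ⟨(i, j), Finset.mem_product.2 ⟨Finset.mem_range.2 hi, Finset.mem_range.2 hj⟩, rfl⟩
    · exact Or.inr h

theorem card_SG (N : ℕ) : N ^ 2 + 3 ≤ (SG N).card := by
  classical
  unfold SG
  rw [Finset.card_union_of_disjoint, Finset.card_image_of_injective, Finset.card_product, Finset.card_range,
    ← pow_two]
  · have h3 : ({pH, pV, pD} : Finset (ℝ × ℝ)).card = 3 :=
      Finset.card_eq_three.2 ⟨pH, pV, pD, pH_ne_pV, pH_ne_pD, pV_ne_pD, rfl⟩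
    rw [h3]
  · intro z z' h
    have := gp_inj h
    exact Prod.ext this.1 this.2
  · rw [Finset.disjoint_left]
    intro x hx hx'
    obtain ⟨z, _, rfl⟩ := Finset.mem_image.1 hx
    apply gp_infl z.1 z.2
    rw [Finset.mem_insert, Finset.mem_insert, Finset.mem_singleton] at hx'
    rcases hx' with h | h | h <;> rw [h]
    · exact pH_inf
    · exact pV_inf
    · exact pD_inf

theorem lc_SG (N : ℕ) : LC (SG N) ≤ N + 1 := by
  classical
  refine (lc_le (insert infl ((Finset.range N).image rowl)) ?_ ?_).trans ?_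
  · intro ℓ hℓ
    rcases Finset.mem_insert.1 hℓ with rfl | hℓ
    · exact infl_line
    · obtain ⟨j, _, rfl⟩ := Finset.mem_image.1 hℓ
      exact rowl_line j
  · intro x hx
    rw [mem_SG] at hx
    rcases hx with ⟨i, j, _, hj, rfl⟩ | rfl | rfl | rfl
    · exact ⟨rowl j, Finset.mem_insert_of_mem (Finset.mem_image_of_mem _ (Finset.mem_range.2 hj)), (gp_rowl i j j).2 rfl⟩
    · exact ⟨infl, Finset.mem_insert_self _ _, pH_inf⟩
    · exact ⟨infl, Finset.mem_insert_self _ _, pV_inf⟩
    · exact ⟨infl, Finset.mem_insert_self _ _, pD_inf⟩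
  · refine (Finset.card_insert_le _ _).trans ?_
    have := Finset.card_image_le (s := Finset.range N) (f := rowl)
    rw [Finset.card_range] at this
    omega

/-- every line contains at most `N + 1` points -/
theorem online_SG {N : ℕ} (hN : 2 ≤ N) : ONLINE (SG N) ≤ N + 1 := by
  classical
  obtain ⟨ℓ, hℓ, hcard⟩ := exists_online (SG N)
  rw [← hcard]
  by_cases hrow : ∃ j, ℓ = rowl j
  · obtain ⟨j, rfl⟩ := hrow
    have h1 : on (SG N) (rowl j) ⊆ insert pH ((Finset.range N).image fun i => gp i j) := by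
      intro x hx
      rw [mem_on, mem_SG] at hx
      obtain ⟨⟨i, j', hi, _, rfl⟩ | rfl | rfl | rfl, hxl⟩ := hx
      · rw [gp_rowl] at hxl
        subst hxl
        exact Finset.mem_insert_of_mem (Finset.mem_image.2 ⟨i, Finset.mem_range.2 hi, rfl⟩)
      · exact Finset.mem_insert_self _ _
      · exact absurd hxl (pV_row j)
      · exact absurd hxl (pD_row j)
    refine (Finset.card_le_card h1).trans ((Finset.card_insert_le _ _).trans ?_)
    have := Finset.card_image_le (s := Finset.range N) (f := fun i => gp i j)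
    rw [Finset.card_range] at this
    omega
  · push Not at hrow
    set G : Finset (ℕ × ℕ) := (Finset.range N ×ˢ Finset.range N).filter fun z => gp z.1 z.2 ∈ ℓ with hG
    have hGc : G.card ≤ N := by
      have h1 : G.card ≤ (Finset.range N).card := by
        refine Finset.card_le_card_of_injOn Prod.snd ?_ ?_
        · intro z hz
          have := (Finset.mem_product.1 (Finset.mem_filter.1 hz).1).2
          exact this
        · intro z hz z' hz' hzz
          have ha := (Finset.mem_filter.1 hz).2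
          have hb := (Finset.mem_filter.1 hz').2
          by_contra hne
          have hne' : gp z.1 z.2 ≠ gp z'.1 z'.2 := fun h => hne (Prod.ext (gp_inj h).1 (gp_inj h).2)
          refine hrow z.2 (line_eq hℓ (rowl_line _) hne' ha hb ((gp_rowl _ _ _).2 rfl) ((gp_rowl _ _ _).2 ?_))
          exact hzz.symm
      rwa [Finset.card_range] at h1
    have h2 : on (SG N) ℓ ⊆ G.image (fun z => gp z.1 z.2) ∪ on {pH, pV, pD} ℓ := by
      intro x hx
      rw [mem_on, mem_SG] at hx
      obtain ⟨⟨i, j, hi, hj, rfl⟩ | h, hxl⟩ := hx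
      · refine Finset.mem_union_left _ (Finset.mem_image.2 ⟨(i, j), Finset.mem_filter.2 ⟨?_, hxl⟩, rfl⟩)
        exact Finset.mem_product.2 ⟨Finset.mem_range.2 hi, Finset.mem_range.2 hj⟩
      · refine Finset.mem_union_right _ (mem_on.2 ⟨?_, hxl⟩)
        rw [Finset.mem_insert, Finset.mem_insert, Finset.mem_singleton]
        exact h
    have h3 : (on ({pH, pV, pD} : Finset (ℝ × ℝ)) ℓ).card ≤ 3 := by
      refine (Finset.card_le_card (fun x hx => (mem_on.1 hx).1)).trans ?_
      exact Finset.card_le_three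
    have h4 := (Finset.card_le_card h2).trans (Finset.card_union_le _ _)
    have h5 := Finset.card_image_le (s := G) (f := fun z => gp z.1 z.2)
    by_cases h6 : (on ({pH, pV, pD} : Finset (ℝ × ℝ)) ℓ).card ≤ 1
    · omega
    · push Not at h6
      obtain ⟨a, ha, b, hb, hab⟩ := Finset.one_lt_card.1 h6
      have hin : ∀ x ∈ on ({pH, pV, pD} : Finset (ℝ × ℝ)) ℓ, x ∈ infl := by
        intro x hx
        rw [mem_on, Finset.mem_insert, Finset.mem_insert, Finset.mem_singleton] at hx
        rcases hx.1 with rfl | rfl | rfl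
        · exact pH_inf
        · exact pV_inf
        · exact pD_inf
      have hℓi : ℓ = infl := line_eq hℓ infl_line hab (mem_on.1 ha).2 (mem_on.1 hb).2 (hin a ha) (hin b hb)
      have hG0 : G = ∅ := by
        rw [Finset.eq_empty_iff_forall_notMem]
        intro z hz
        have := (Finset.mem_filter.1 hz).2
        rw [hℓi] at this
        exact gp_infl _ _ this
      have h7 : G.card = 0 := by rw [hG0, Finset.card_empty]
      omega

open Classical in
/-- every part meets a full line in exactly two points -/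
theorem tight {S : Finset (ℝ × ℝ)} (P : Finpartition S) (hP : ∀ A ∈ P.parts, GenPos A) {m : ℕ} (hm : P.parts.card ≤ m)
    {ℓ : Set (ℝ × ℝ)} (hℓ : IsLine ℓ) (hon : 2 * m ≤ (on S ℓ).card) : ∀ A ∈ P.parts, (on A ℓ).card = 2 := by
  intro A hA
  have h1 : on S ℓ ⊆ P.parts.biUnion fun A => on A ℓ := by
    intro x hx
    rw [mem_on] at hx
    obtain ⟨B, hB, hxB⟩ := P.exists_mem hx.1
    exact Finset.mem_biUnion.2 ⟨B, hB, mem_on.2 ⟨hxB, hx.2⟩⟩
  have h2 := (Finset.card_le_card h1).trans Finset.card_biUnion_le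
  have h3 := (hP A hA).card_on hℓ
  by_contra hne
  have h4 : (on A ℓ).card < 2 := by omega
  have h5 : ∑ B ∈ P.parts, (on B ℓ).card < ∑ _B ∈ P.parts, 2 :=
    Finset.sum_lt_sum (fun B hB => (hP B hB).card_on hℓ) ⟨A, hA, h4⟩
  rw [Finset.sum_const, smul_eq_mul] at h5
  omega

/-- the lower bound for `GP` -/
theorem gp_SG {m : ℕ} (hm : 1 ≤ m) : m < GP (SG (2 * m - 1)) := by
  classical
  set N := 2 * m - 1 with hN
  by_contra hle
  push Not at hle
  obtain ⟨P, hP, hc⟩ := exists_gp (SG N)
  rw [← hc] at hle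
  -- rows and columns are full
  have hrow : ∀ j < N, 2 * m ≤ (on (SG N) (rowl j)).card := by
    intro j hj
    have h1 : insert pH ((Finset.range N).image fun i => gp i j) ⊆ on (SG N) (rowl j) := by
      intro x hx
      rcases Finset.mem_insert.1 hx with rfl | hx
      · exact mem_on.2 ⟨mem_SG.2 (Or.inr (Or.inl rfl)), pH_row j⟩
      · obtain ⟨i, hi, rfl⟩ := Finset.mem_image.1 hx
        exact mem_on.2 ⟨mem_SG.2 (Or.inl ⟨i, j, Finset.mem_range.1 hi, hj, rfl⟩), (gp_rowl i j j).2 rfl⟩
    have h2 := Finset.card_le_card h1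
    rw [Finset.card_insert_of_notMem, Finset.card_image_of_injective, Finset.card_range] at h2
    · omega
    · intro a b h
      exact (gp_inj h).1
    · intro h
      obtain ⟨i, _, h⟩ := Finset.mem_image.1 h
      exact gp_infl i j (h ▸ pH_inf)
  have hcol : ∀ i < N, 2 * m ≤ (on (SG N) (coll i)).card := by
    intro i hi
    have h1 : insert pV ((Finset.range N).image fun j => gp i j) ⊆ on (SG N) (coll i) := by
      intro x hx
      rcases Finset.mem_insert.1 hx with rfl | hx
      · exact mem_on.2 ⟨mem_SG.2 (Or.inr (Or.inr (Or.inl rfl))), pV_col i⟩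
      · obtain ⟨j, hj, rfl⟩ := Finset.mem_image.1 hx
        exact mem_on.2 ⟨mem_SG.2 (Or.inl ⟨i, j, hi, Finset.mem_range.1 hj, rfl⟩), (gp_coll i j i).2 rfl⟩
    have h2 := Finset.card_le_card h1
    rw [Finset.card_insert_of_notMem, Finset.card_image_of_injective, Finset.card_range] at h2
    · omega
    · intro a b h
      exact (gp_inj h).2
    · intro h
      obtain ⟨j, _, h⟩ := Finset.mem_image.1 h
      exact gp_infl i j (h ▸ pV_inf)
  -- the part of the point `pD`
  obtain ⟨A, hA, hDA⟩ := P.exists_mem (show pD ∈ SG N from mem_SG.2 (Or.inr (Or.inr (Or.inr rfl))))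
  have hGA := hP A hA
  have hAS : A ⊆ SG N := P.le hA
  have hr2 : ∀ j < N, (on A (rowl j)).card = 2 := fun j hj => tight P hP hle (rowl_line j) (hrow j hj) A hA
  have hc2 : ∀ i < N, (on A (coll i)).card = 2 := fun i hi => tight P hP hle (coll_line i) (hcol i hi) A hA
  set G : Finset (ℕ × ℕ) := (Finset.range N ×ˢ Finset.range N).filter fun z => gp z.1 z.2 ∈ A with hG
  set h : ℕ := if pH ∈ A then 1 else 0 with hh
  set v : ℕ := if pV ∈ A then 1 else 0 with hv
  have hmG : ∀ {i j : ℕ}, (i, j) ∈ G ↔ i < N ∧ j < N ∧ gp i j ∈ A := by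
    intro i j
    rw [hG, Finset.mem_filter, Finset.mem_product, Finset.mem_range, Finset.mem_range, and_assoc]
  have hra : ∀ j < N, (G.filter fun z => z.2 = j).card + h = 2 := by
    intro j hj
    rw [← hr2 j hj]
    have h1 : on A (rowl j) = (G.filter fun z => z.2 = j).image (fun z => gp z.1 z.2) ∪ (if pH ∈ A then {pH} else ∅) := by
      ext x
      rw [mem_on, Finset.mem_union, Finset.mem_image]
      constructor
      · rintro ⟨hxA, hxl⟩
        have hxS := hAS hxA
        rw [mem_SG] at hxS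
        rcases hxS with ⟨i, j', hi, hj', rfl⟩ | rfl | rfl | rfl
        · rw [gp_rowl] at hxl
          subst hxl
          exact Or.inl ⟨(i, j'), Finset.mem_filter.2 ⟨hmG.2 ⟨hi, hj', hxA⟩, rfl⟩, rfl⟩
        · right
          rw [if_pos hxA]
          exact Finset.mem_singleton_self _
        · exact absurd hxl (pV_row j)
        · exact absurd hxl (pD_row j)
      · rintro (⟨z, hz, rfl⟩ | hx)
        · obtain ⟨hz1, hz2⟩ := Finset.mem_filter.1 hz
          exact ⟨(hmG.1 hz1).2.2, (gp_rowl _ _ _).2 hz2⟩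
        · split_ifs at hx with hHA
          · rw [Finset.mem_singleton] at hx
            rw [hx]
            exact ⟨hHA, pH_row j⟩
          · exact absurd hx (Finset.notMem_empty _)
    rw [h1, Finset.card_union_of_disjoint, Finset.card_image_of_injective]
    · congr 1
      rw [hh]
      split_ifs
      · rw [Finset.card_singleton]
      · rw [Finset.card_empty]
    · intro z z' h'
      exact Prod.ext (gp_inj h').1 (gp_inj h').2
    · rw [Finset.disjoint_left]
      intro x hx hx'
      obtain ⟨z, _, rfl⟩ := Finset.mem_image.1 hx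
      split_ifs at hx' with hHA
      · rw [Finset.mem_singleton] at hx'
        exact gp_infl _ _ (hx' ▸ pH_inf)
      · exact absurd hx' (Finset.notMem_empty _)
  have hca : ∀ i < N, (G.filter fun z => z.1 = i).card + v = 2 := by
    intro i hi
    rw [← hc2 i hi]
    have h1 : on A (coll i) = (G.filter fun z => z.1 = i).image (fun z => gp z.1 z.2) ∪ (if pV ∈ A then {pV} else ∅) := by
      ext x
      rw [mem_on, Finset.mem_union, Finset.mem_image]
      constructor
      · rintro ⟨hxA, hxl⟩
        have hxS := hAS hxA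
        rw [mem_SG] at hxS
        rcases hxS with ⟨i', j, hi', hj, rfl⟩ | rfl | rfl | rfl
        · rw [gp_coll] at hxl
          subst hxl
          exact Or.inl ⟨(i', j), Finset.mem_filter.2 ⟨hmG.2 ⟨hi', hj, hxA⟩, rfl⟩, rfl⟩
        · exact absurd hxl (pH_col i)
        · right
          rw [if_pos hxA]
          exact Finset.mem_singleton_self _
        · exact absurd hxl (pD_col i)
      · rintro (⟨z, hz, rfl⟩ | hx)
        · obtain ⟨hz1, hz2⟩ := Finset.mem_filter.1 hz
          exact ⟨(hmG.1 hz1).2.2, (gp_coll _ _ _).2 hz2⟩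
        · split_ifs at hx with hVA
          · rw [Finset.mem_singleton] at hx
            rw [hx]
            exact ⟨hVA, pV_col i⟩
          · exact absurd hx (Finset.notMem_empty _)
    rw [h1, Finset.card_union_of_disjoint, Finset.card_image_of_injective]
    · congr 1
      rw [hv]
      split_ifs
      · rw [Finset.card_singleton]
      · rw [Finset.card_empty]
    · intro z z' h'
      exact Prod.ext (gp_inj h').1 (gp_inj h').2
    · rw [Finset.disjoint_left]
      intro x hx hx'
      obtain ⟨z, _, rfl⟩ := Finset.mem_image.1 hx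
      split_ifs at hx' with hVA
      · rw [Finset.mem_singleton] at hx'
        exact gp_infl _ _ (hx' ▸ pV_inf)
      · exact absurd hx' (Finset.notMem_empty _)
  have hGr : G.card = N * (2 - h) := by
    rw [Finset.card_eq_sum_card_fiberwise (f := Prod.snd) (t := Finset.range N)
      (fun z hz => Finset.mem_range.2 (hmG.1 (show (z.1, z.2) ∈ G from hz)).2.1)]
    rw [Finset.sum_congr rfl (fun j hj => show _ = 2 - h by
      have := hra j (Finset.mem_range.1 hj)
      omega), Finset.sum_const, Finset.card_range, smul_eq_mul]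
  have hGc : G.card = N * (2 - v) := by
    rw [Finset.card_eq_sum_card_fiberwise (f := Prod.fst) (t := Finset.range N)
      (fun z hz => Finset.mem_range.2 (hmG.1 (show (z.1, z.2) ∈ G from hz)).1)]
    rw [Finset.sum_congr rfl (fun j hj => show _ = 2 - v by
      have := hca j (Finset.mem_range.1 hj)
      omega), Finset.sum_const, Finset.card_range, smul_eq_mul]
  have hN0 : 0 < N := by omega
  have hhv : 2 - h = 2 - v := Nat.eq_of_mul_eq_mul_left hN0 (hGr.symm.trans hGc)
  have hcase : h = 0 := by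
    by_contra hne
    have hHA : pH ∈ A := by
      by_contra h'
      apply hne
      rw [hh, if_neg h']
    have hVA : pV ∈ A := by
      by_contra h'
      rw [hh, hv, if_pos hHA, if_neg h'] at hhv
      omega
    exact hGA infl infl_line pH hHA pV hVA pD hDA pH_ne_pV pV_ne_pD pH_ne_pD ⟨pH_inf, pV_inf, pD_inf⟩
  rw [hcase] at hGr
  -- the diagonals
  have hdia : G.card ≤ (Finset.range (2 * N - 1)).card := by
    refine Finset.card_le_card_of_injOn (fun z => z.1 + (N - 1) - z.2) ?_ ?_
    · intro z hz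
      have := hmG.1 (show (z.1, z.2) ∈ G from hz)
      change z.1 + (N - 1) - z.2 ∈ Finset.range (2 * N - 1)
      rw [Finset.mem_range]
      omega
    · intro z hz z' hz' hzz
      have ha := hmG.1 (show (z.1, z.2) ∈ G from hz)
      have hb := hmG.1 (show (z'.1, z'.2) ∈ G from hz')
      simp only at hzz
      by_contra hne
      have hne' : gp z.1 z.2 ≠ gp z'.1 z'.2 := fun h => hne (Prod.ext (gp_inj h).1 (gp_inj h).2)
      have hD1 : ∀ i j, gp i j ≠ pD := fun i j h => gp_infl i j (h ▸ pD_inf)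
      refine hGA (dial ((z.1 : ℤ) - z.2)) (dial_line _) _ ha.2.2 _ hb.2.2 pD hDA hne' (hD1 _ _) (hD1 _ _)
        ⟨gp_dial _ _ _ rfl, gp_dial _ _ _ ?_, pD_dia _⟩
      omega
  rw [Finset.card_range] at hdia
  omega

/-- `N(k)` -/
noncomputable def NN (k : ℕ) : ℕ :=
  sInf {n | ∀ S : Finset (ℝ × ℝ), LC S ≤ k → n ≤ S.card → GP S = (ONLINE S + 1) / 2}

theorem NN_le (k : ℕ) : NN k ≤ 290 * k ^ 3 := Nat.sInf_le fun _ h1 h2 => gp_eq_of_large h1 h2

theorem NN_spec (k : ℕ) : ∀ S : Finset (ℝ × ℝ), LC S ≤ k → NN k ≤ S.card → GP S = (ONLINE S + 1) / 2 :=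
  Nat.sInf_mem (s := {n | ∀ S : Finset (ℝ × ℝ), LC S ≤ k → n ≤ S.card → GP S = (ONLINE S + 1) / 2})
    ⟨290 * k ^ 3, fun _ h1 h2 => gp_eq_of_large h1 h2⟩

theorem le_NN {k m : ℕ} (hm : 2 ≤ m) (hk : 2 * m ≤ k) : (2 * m - 1) ^ 2 + 4 ≤ NN k := by
  by_contra hlt
  push Not at hlt
  have h1 := card_SG (2 * m - 1)
  have h2 := lc_SG (2 * m - 1)
  have h3 := online_SG (N := 2 * m - 1) (by omega)
  have h4 := gp_SG (m := m) (by omega)
  have h5 := NN_spec k (SG (2 * m - 1)) (by omega) (by omega)
  omega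

theorem le_NN' {k : ℕ} (hk : 4 ≤ k) : (k - 2) ^ 2 + 4 ≤ NN k := by
  rcases Nat.even_or_odd' k with ⟨c, rfl | rfl⟩
  · have h := le_NN (k := 2 * c) (m := c) (by omega) (by omega)
    have h2 : (2 * c - 2) ^ 2 ≤ (2 * c - 1) ^ 2 := Nat.pow_le_pow_left (by omega) 2
    omega
  · have h := le_NN (k := 2 * c + 1) (m := c) (by omega) (by omega)
    have h2 : 2 * c + 1 - 2 = 2 * c - 1 := by omega
    rw [h2]
    exact h

end Pool.Agent.Q231.GPK
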