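import Pool.Agent.Q231.GPK.Kern

/-!
# The kernel is computed in polynomial time
-/

set_option autoImplicit false

namespace Pool.Agent.Q231.GPK

open Pool.Agent.NPC

/-- the positive part of the numerator -/
def pp (q : ℚ) : ℕ := if q.num < 0 then 0 else q.num.natAbs

/-- the negative part of the numerator -/
def ng (q : ℚ) : ℕ := if q.num < 0 then q.num.natAbs else 0

theorem pp_ng (q : ℚ) : (pp q : ℚ) - ng q = q * q.den := by
  rw [Rat.mul_den_eq_num]
  unfold pp ng
  split_ifs with h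
  · have : (q.num.natAbs : ℤ) = - q.num := by omega
    have h2 : ((q.num.natAbs : ℕ) : ℚ) = - (q.num : ℚ) := by
      rw [← Int.cast_natCast q.num.natAbs, this, Int.cast_neg]
    rw [h2]
    simp
  · have : (q.num.natAbs : ℤ) = q.num := by omega
    have h2 : ((q.num.natAbs : ℕ) : ℚ) = (q.num : ℚ) := by
      rw [← Int.cast_natCast q.num.natAbs, this]
    rw [h2]
    simp

/-- the positive part of `x y` times a common denominator -/
def tP (x y : ℚ) (D : ℕ) : ℕ := (pp x * pp y + ng x * ng y) * D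

/-- the negative part of `x y` times a common denominator -/
def tN (x y : ℚ) (D : ℕ) : ℕ := (pp x * ng y + ng x * pp y) * D

theorem tP_tN (x y : ℚ) (D : ℕ) : (tP x y D : ℚ) - tN x y D = x * y * (x.den * y.den * D) := by
  unfold tP tN
  push_cast
  have h1 := pp_ng x
  have h2 := pp_ng y
  calc ((pp x : ℚ) * pp y + ng x * ng y) * D - ((pp x : ℚ) * ng y + ng x * pp y) * D
      = ((pp x : ℚ) - ng x) * ((pp y : ℚ) - ng y) * D := by ring
    _ = _ := by rw [h1, h2]; ring

/-- collinearity by natural numbers -/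
def colN (p q r : ℚ × ℚ) : Bool :=
  decide (tP p.1 q.2 (q.1.den * r.1.den * (p.2.den * r.2.den)) + tP q.1 r.2 (p.1.den * r.1.den * (p.2.den * q.2.den)) +
    tP r.1 p.2 (p.1.den * q.1.den * (q.2.den * r.2.den)) + tN p.1 r.2 (q.1.den * r.1.den * (p.2.den * q.2.den)) +
    tN q.1 p.2 (p.1.den * r.1.den * (q.2.den * r.2.den)) + tN r.1 q.2 (p.1.den * q.1.den * (p.2.den * r.2.den)) =
  tN p.1 q.2 (q.1.den * r.1.den * (p.2.den * r.2.den)) + tN q.1 r.2 (p.1.den * r.1.den * (p.2.den * q.2.den)) +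
    tN r.1 p.2 (p.1.den * q.1.den * (q.2.den * r.2.den)) + tP p.1 r.2 (q.1.den * r.1.den * (p.2.den * q.2.den)) +
    tP q.1 p.2 (p.1.den * r.1.den * (q.2.den * r.2.den)) + tP r.1 q.2 (p.1.den * q.1.den * (p.2.den * r.2.den)))

theorem colN_eq (p q r : ℚ × ℚ) : colN p q r = colB p q r := by
  unfold colN colB
  rw [decide_eq_decide, ← Nat.cast_inj (R := ℚ)]
  push_cast
  have e1 := tP_tN p.1 q.2 (q.1.den * r.1.den * (p.2.den * r.2.den))
  have e2 := tP_tN q.1 r.2 (p.1.den * r.1.den * (p.2.den * q.2.den))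
  have e3 := tP_tN r.1 p.2 (p.1.den * q.1.den * (q.2.den * r.2.den))
  have e4 := tP_tN p.1 r.2 (q.1.den * r.1.den * (p.2.den * q.2.den))
  have e5 := tP_tN q.1 p.2 (p.1.den * r.1.den * (q.2.den * r.2.den))
  have e6 := tP_tN r.1 q.2 (p.1.den * q.1.den * (p.2.den * r.2.den))
  push_cast at e1 e2 e3 e4 e5 e6
  have hD : (p.1.den : ℚ) * q.1.den * r.1.den * (p.2.den * q.2.den * r.2.den) ≠ 0 := by
    have h1 : (p.1.den : ℚ) ≠ 0 := Nat.cast_ne_zero.2 p.1.den_nz
    have h2 : (q.1.den : ℚ) ≠ 0 := Nat.cast_ne_zero.2 q.1.den_nz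
    have h3 : (r.1.den : ℚ) ≠ 0 := Nat.cast_ne_zero.2 r.1.den_nz
    have h4 : (p.2.den : ℚ) ≠ 0 := Nat.cast_ne_zero.2 p.2.den_nz
    have h5 : (q.2.den : ℚ) ≠ 0 := Nat.cast_ne_zero.2 q.2.den_nz
    have h6 : (r.2.den : ℚ) ≠ 0 := Nat.cast_ne_zero.2 r.2.den_nz
    positivity
  rw [← sub_eq_zero]
  have key : ∀ A B : ℚ, A = ((p.1.den : ℚ) * q.1.den * r.1.den * (p.2.den * q.2.den * r.2.den)) * B → (A = 0 ↔ B = 0) := by
    intro A B h
    rw [h, mul_eq_zero]
    tauto
  apply key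
  unfold dq
  linear_combination e1 + e2 + e3 - e4 - e5 - e6

/-! ## Polynomial time -/

variable {α : Type} [TEnc α]

theorem poly_num : Poly (fun q : ℚ => ((decide (q.num < 0), q.num.natAbs), q.den)) := Poly.id (α := ℚ)

theorem poly_den {f : α → ℚ} (hf : Poly f) : Poly (fun a => (f a).den) :=
  Poly.comp (g := fun q : ℚ => q.den) (Poly.snd poly_num) hf

theorem poly_pp {f : α → ℚ} (hf : Poly f) : Poly (fun a => pp (f a)) := by
  refine Poly.comp (g := pp) ?_ hf
  have h1 : Poly (fun q : ℚ => decide (q.num < 0)) := Poly.fst (Poly.fst poly_num)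
  have h2 : Poly (fun q : ℚ => q.num.natAbs) := Poly.snd (Poly.fst poly_num)
  exact (Poly.cond h1 (Pool.Agent.NPC.Poly.const 0) h2).congr fun q => by
    unfold pp
    by_cases h : q.num < 0 <;> simp [h]

theorem poly_ng {f : α → ℚ} (hf : Poly f) : Poly (fun a => ng (f a)) := by
  refine Poly.comp (g := ng) ?_ hf
  have h1 : Poly (fun q : ℚ => decide (q.num < 0)) := Poly.fst (Poly.fst poly_num)
  have h2 : Poly (fun q : ℚ => q.num.natAbs) := Poly.snd (Poly.fst poly_num)
  exact (Poly.cond h1 h2 (Pool.Agent.NPC.Poly.const 0)).congr fun q => by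
    unfold ng
    by_cases h : q.num < 0 <;> simp [h]

attribute [local fun_prop] poly_den poly_pp poly_ng

theorem poly_tP {f g : α → ℚ} {D : α → ℕ} (hf : Poly f) (hg : Poly g) (hD : Poly D) :
    Poly (fun a => tP (f a) (g a) (D a)) := by
  unfold tP
  fun_prop

theorem poly_tN {f g : α → ℚ} {D : α → ℕ} (hf : Poly f) (hg : Poly g) (hD : Poly D) :
    Poly (fun a => tN (f a) (g a) (D a)) := by
  unfold tN
  fun_prop

attribute [local fun_prop] poly_tP poly_tN

theorem poly_colB {p q r : α → ℚ × ℚ} (hp : Poly p) (hq : Poly q) (hr : Poly r) :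
    Poly (fun a => colB (p a) (q a) (r a)) := by
  have h : Poly (fun a => colN (p a) (q a) (r a)) := by
    unfold colN
    fun_prop
  exact h.congr fun a => colN_eq _ _ _

attribute [local fun_prop] poly_colB

theorem poly_fl {l : α → List (ℚ × ℚ)} {p q : α → ℚ × ℚ} (hl : Poly l) (hp : Poly p) (hq : Poly q) :
    Poly (fun a => fl (l a) (p a) (q a)) := by
  unfold fl
  fun_prop

attribute [local fun_prop] poly_fl

theorem poly_rich {t : α → ℕ} {l : α → List (ℚ × ℚ)} {p q : α → ℚ × ℚ} (ht : Poly t) (hl : Poly l) (hp : Poly p)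
    (hq : Poly q) : Poly (fun a => rich (t a) (l a) (p a) (q a)) := by
  unfold rich
  fun_prop

theorem poly_lead {l : α → List (ℚ × ℚ)} {p q : α → ℚ × ℚ} (hl : Poly l) (hp : Poly p) (hq : Poly q) :
    Poly (fun a => lead (l a) (p a) (q a)) := by
  unfold lead
  fun_prop

attribute [local fun_prop] poly_rich poly_lead

theorem poly_kap {t : α → ℕ} {l : α → List (ℚ × ℚ)} (ht : Poly t) (hl : Poly l) : Poly (fun a => kap (t a) (l a)) := by
  unfold kap Rl Ul
  fun_prop

attribute [local fun_prop] poly_kap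

theorem poly_crit {l : α → List (ℚ × ℚ)} (hl : Poly l) : Poly (fun a => crit (l a)) := by
  unfold crit
  have h1 : Poly (fun a => List.range (l a).length) := (UPoly.length hl).range
  fun_prop

theorem poly_okB {l : α → List (ℚ × ℚ)} {g : α → ℕ} (hl : Poly l) (hg : Poly g) : Poly (fun a => okB (l a) (g a)) := by
  unfold okB
  fun_prop

theorem poly_Kn : Poly (fun I : List (ℚ × ℚ) × ℕ => Kn I.1 I.2) := by
  unfold Kn
  refine Poly.ite (Poly.decide_bool (poly_crit (Poly.fst Poly.id)))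
    (Poly.ite (Poly.decide_bool (poly_okB (Poly.fst Poly.id) (Poly.snd Poly.id))) (Pool.Agent.NPC.Poly.const _) (Pool.Agent.NPC.Poly.const _)) ?_
  fun_prop

theorem poly_K : Poly K := by
  have h : Poly (fun I : List (ℚ × ℚ) × ℕ => (I.1.dedup, I.2)) :=
    Poly.pair (Pool.Agent.Q231.Gr.poly_dedup (Poly.fst Poly.id)) (Poly.snd Poly.id)
  exact Poly.comp (g := fun I : List (ℚ × ℚ) × ℕ => Kn I.1 I.2) (f := fun I : List (ℚ × ℚ) × ℕ => (I.1.dedup, I.2))
    poly_Kn h

/-- the kernel on bit strings -/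
theorem polyTime_K : ∃ F : List Bool → List Bool, PolyTime F ∧ ∀ I : List (ℚ × ℚ) × ℕ, F (bits I) = bits (K I) := by
  have h : Poly (fun x : List Bool => (unbits (List (ℚ × ℚ) × ℕ) x).map K) :=
    Poly.optMap_fp (h := fun _ I => K I) poly_unbits (Poly.comp poly_K (Poly.snd Poly.id))
  refine ⟨_, polyTime_opt h, fun I => ?_⟩
  rw [unbits_bits]
  rfl

end Pool.Agent.Q231.GPK
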