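import Pool.Agent.Q231.GPK.Defs
import Pool.Agent.Q231.GPK.Loc

/-!
# Configurations covered by `k` lines with at least `290 k³` points
-/

set_option autoImplicit false

namespace Pool.Agent.Q231.GPK

open Classical

theorem inj3 {α : Type} {f : Fin 3 → α} (h01 : f 0 ≠ f 1) (h12 : f 1 ≠ f 2) (h02 : f 0 ≠ f 2) :
    Function.Injective f := by
  intro u v huv
  fin_cases u <;> fin_cases v
  · rfl
  · exact absurd huv h01
  · exact absurd huv h02
  · exact absurd huv.symm h01
  · rfl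
  · exact absurd huv h12
  · exact absurd huv.symm h02
  · exact absurd huv.symm h12
  · rfl

theorem const3 {α : Type} {f : Fin 3 → α} (h01 : f 0 = f 1) (h12 : f 1 = f 2) : ∀ u v, f u = f v := by
  intro u v
  fin_cases u <;> fin_cases v
  · rfl
  · exact h01
  · exact h01.trans h12
  · exact h01.symm
  · rfl
  · exact h12
  · exact (h01.trans h12).symm
  · exact h12.symm
  · rfl

/-! ## Stage 1: the classes of the crossing points -/

/-- a set in general position covered by `k` lines has at most `2 k` points -/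
theorem card_le_of_cover {k : ℕ} (L : Fin k → Set (ℝ × ℝ)) (hL : ∀ i, IsLine (L i)) {A : Finset (ℝ × ℝ)} (hA : GenPos A)
    (hcov : ∀ p ∈ A, ∃ i, p ∈ L i) : A.card ≤ 2 * k := by
  have h1 : A ⊆ (Finset.univ : Finset (Fin k)).biUnion fun i => on A (L i) := by
    intro x hx
    obtain ⟨i, hi⟩ := hcov x hx
    exact Finset.mem_biUnion.2 ⟨i, Finset.mem_univ i, mem_on.2 ⟨hx, hi⟩⟩
  refine (Finset.card_le_card h1).trans (Finset.card_biUnion_le.trans ?_)
  refine (Finset.sum_le_card_nsmul _ _ 2 fun i _ => hA.card_on (hL i)).trans ?_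
  rw [smul_eq_mul, mul_comm, Finset.card_univ, Fintype.card_fin]

/-- one class -/
theorem one_class {k : ℕ} (L : Fin k → Set (ℝ × ℝ)) (hL : ∀ i, IsLine (L i)) {S : Finset (ℝ × ℝ)}
    (hcov : ∀ p ∈ S, ∃ i, p ∈ L i) (F : Finset (ℝ × ℝ)) (M : ℕ) (hM : ∀ i, (on F (L i)).card ≤ M) {p : ℝ × ℝ} (hp : p ∈ S) :
    ∃ A ⊆ S, p ∈ A ∧ (∀ x ∈ A, x ∈ F → x = p) ∧ GenPos A ∧
      ∀ i, M + 4 * k ^ 2 < (on S (L i)).card → 2 ≤ (on A (L i)).card := by
  have hne : (S.powerset.filter fun A => p ∈ A ∧ (∀ x ∈ A, x ∈ F → x = p) ∧ GenPos A).Nonempty := by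
    refine ⟨{p}, ?_⟩
    rw [Finset.mem_filter, Finset.mem_powerset, Finset.singleton_subset_iff]
    refine ⟨hp, Finset.mem_singleton_self p, ?_, genPos_singleton p⟩
    intro x hx _
    exact Finset.mem_singleton.1 hx
  obtain ⟨A, hA, hmax⟩ := Finset.exists_max_image _ Finset.card hne
  rw [Finset.mem_filter, Finset.mem_powerset] at hA
  obtain ⟨hAS, hpA, hAF, hGA⟩ := hA
  refine ⟨A, hAS, hpA, hAF, hGA, ?_⟩
  intro i hi
  by_contra hlt
  push Not at hlt
  have hone : ∀ x ∈ A, ∀ y ∈ A, x ∈ L i → y ∈ L i → x = y := by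
    intro x hx y hy hxi hyi
    have h1 : (on A (L i)).card ≤ 1 := by omega
    exact Finset.card_le_one.1 h1 x (mem_on.2 ⟨hx, hxi⟩) y (mem_on.2 ⟨hy, hyi⟩)
  have hAk : A.card ≤ 2 * k := card_le_of_cover L hL hGA fun q hq => hcov q (hAS hq)
  -- no point of the line can be added
  have hbad : ∀ z ∈ on S (L i) \ F, ∃ q : (ℝ × ℝ) × (ℝ × ℝ), q ∈ A ×ˢ A ∧
      ((q.1 = q.2 ∧ z = q.1) ∨ (q.1 ≠ q.2 ∧ ∃ ℓ, IsLine ℓ ∧ q.1 ∈ ℓ ∧ q.2 ∈ ℓ ∧ z ∈ ℓ)) := by
    intro z hz
    rw [Finset.mem_sdiff, mem_on] at hz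
    by_cases hzA : z ∈ A
    · exact ⟨(z, z), Finset.mem_product.2 ⟨hzA, hzA⟩, Or.inl ⟨rfl, rfl⟩⟩
    · by_contra hno
      push Not at hno
      have hins : GenPos (insert z A) := by
        refine genPos_insert hGA ?_
        intro x hx y hy hxy ℓ hℓ hxℓ hyℓ hzℓ
        exact (hno (x, y) (Finset.mem_product.2 ⟨hx, hy⟩)).2 hxy ℓ hℓ hxℓ hyℓ hzℓ
      have h2 := hmax (insert z A) (by
        rw [Finset.mem_filter, Finset.mem_powerset, Finset.insert_subset_iff]
        refine ⟨⟨hz.1.1, hAS⟩, Finset.mem_insert_of_mem hpA, ?_, hins⟩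
        intro x hx hxF
        rcases Finset.mem_insert.1 hx with rfl | hx
        · exact absurd hxF hz.2
        · exact hAF x hx hxF)
      rw [Finset.card_insert_of_notMem hzA] at h2
      omega
  choose! q hq hq2 using hbad
  have hinj : Set.InjOn q ((on S (L i) \ F : Finset (ℝ × ℝ)) : Set (ℝ × ℝ)) := by
    intro z hz z' hz' hqq
    have h1 := hq z hz
    have h2 := hq2 z hz
    have h3 := hq2 z' hz'
    rw [← hqq] at h3
    rw [Finset.mem_coe, Finset.mem_sdiff, mem_on] at hz hz'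
    rcases h2 with ⟨h2, h2'⟩ | ⟨h2, ℓ, hℓ, hx, hy, hzℓ⟩
    · rcases h3 with ⟨_, h3'⟩ | ⟨h3, _⟩
      · rw [h2', h3']
      · exact absurd h2 h3
    · rcases h3 with ⟨h3, _⟩ | ⟨_, ℓ', hℓ', hx', hy', hzℓ'⟩
      · exact absurd h3 h2
      · have h4 : ℓ = ℓ' := line_eq hℓ hℓ' h2 hx hy hx' hy'
        subst h4
        by_contra hzz
        have h5 : ℓ = L i := line_eq hℓ (hL i) hzz hzℓ hzℓ' hz.1.2 hz'.1.2
        subst h5
        rw [Finset.mem_product] at h1
        exact h2 (hone _ h1.1 _ h1.2 hx hy)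
  have hc1 : (on S (L i) \ F).card ≤ A.card * A.card := by
    rw [← Finset.card_product]
    exact Finset.card_le_card_of_injOn q (fun z hz => hq z hz) hinj
  have hc2 : (on S (L i)).card ≤ (on S (L i) \ F).card + (on F (L i)).card := by
    have h1 : on S (L i) ⊆ (on S (L i) \ F) ∪ on F (L i) := by
      intro x hx
      by_cases hxF : x ∈ F
      · exact Finset.mem_union_right _ (mem_on.2 ⟨hxF, (mem_on.1 hx).2⟩)
      · exact Finset.mem_union_left _ (Finset.mem_sdiff.2 ⟨hx, hxF⟩)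
    exact (Finset.card_le_card h1).trans (Finset.card_union_le _ _)
  have hc3 : A.card * A.card ≤ (2 * k) * (2 * k) := Nat.mul_le_mul hAk hAk
  have hc4 := hM i
  have hc5 : (2 * k) * (2 * k) = 4 * k ^ 2 := by ring
  omega

/-- the classes of all points of `I` -/
theorem classes {k : ℕ} (L : Fin k → Set (ℝ × ℝ)) (hL : ∀ i, IsLine (L i)) {S : Finset (ℝ × ℝ)}
    (hcov : ∀ p ∈ S, ∃ i, p ∈ L i) (I : Finset (ℝ × ℝ)) (hI : I ⊆ S) (J : Finset (ℝ × ℝ)) (hJ : J ⊆ I) :
    ∃ A : ℝ × ℝ → Finset (ℝ × ℝ), (∀ p ∈ J, A p ⊆ S ∧ p ∈ A p ∧ (∀ x ∈ A p, x ∈ I → x = p) ∧ GenPos (A p) ∧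
      ∀ i, 3 * I.card + 4 * k ^ 2 < (on S (L i)).card → 2 ≤ (on (A p) (L i)).card) ∧
      ∀ p ∈ J, ∀ q ∈ J, p ≠ q → Disjoint (A p) (A q) := by
  induction J using Finset.induction_on with
  | empty => exact ⟨fun _ => ∅, by simp, by simp⟩
  | insert q J hqJ ih =>
    obtain ⟨A, hA, hd⟩ := ih ((Finset.subset_insert q J).trans hJ)
    have hqI : q ∈ I := hJ (Finset.mem_insert_self q J)
    have hJI : J ⊆ I := (Finset.subset_insert q J).trans hJ
    obtain ⟨B, hB1, hB2, hB3, hB4, hB5⟩ := one_class L hL hcov (I ∪ J.biUnion A) (3 * I.card) (by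
      intro i
      have h1 : on (I ∪ J.biUnion A) (L i) ⊆ I ∪ J.biUnion fun p => on (A p) (L i) := by
        intro x hx
        rw [mem_on, Finset.mem_union, Finset.mem_biUnion] at hx
        rcases hx with ⟨hx | ⟨p, hp, hx⟩, hxi⟩
        · exact Finset.mem_union_left _ hx
        · exact Finset.mem_union_right _ (Finset.mem_biUnion.2 ⟨p, hp, mem_on.2 ⟨hx, hxi⟩⟩)
      have h2 : (J.biUnion fun p => on (A p) (L i)).card ≤ J.card * 2 := by
        refine Finset.card_biUnion_le.trans ?_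
        exact (Finset.sum_le_card_nsmul _ _ 2 fun p hp => (hA p hp).2.2.2.1.card_on (hL i))
      have h3 := Finset.card_le_card hJI
      have h4 := (Finset.card_le_card h1).trans (Finset.card_union_le _ _)
      omega) (hI hqI)
    refine ⟨Function.update A q B, ?_, ?_⟩
    · intro p hp
      rcases Finset.mem_insert.1 hp with rfl | hp'
      · rw [Function.update_self]
        exact ⟨hB1, hB2, fun x hx hxI => hB3 x hx (Finset.mem_union_left _ hxI), hB4, hB5⟩
      · have hne : p ≠ q := fun h => hqJ (h ▸ hp')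
        rw [Function.update_of_ne hne]
        exact hA p hp'
    · have key : ∀ p ∈ J, Disjoint B (A p) := by
        intro p hp
        rw [Finset.disjoint_left]
        intro x hx hx'
        have h1 := hB3 x hx (Finset.mem_union_right _ (Finset.mem_biUnion.2 ⟨p, hp, hx'⟩))
        have h2 := (hA p hp).2.2.1 x hx' (h1 ▸ hqI)
        exact hqJ (h1 ▸ h2 ▸ hp)
      intro p hp p' hp' hne
      rcases Finset.mem_insert.1 hp with rfl | hpJ
      · rcases Finset.mem_insert.1 hp' with rfl | hp'J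
        · exact absurd rfl hne
        · rw [Function.update_self, Function.update_of_ne hne.symm]
          exact key p' hp'J
      · have h1 : p ≠ q := fun h => hqJ (h ▸ hpJ)
        rw [Function.update_of_ne h1]
        rcases Finset.mem_insert.1 hp' with rfl | hp'J
        · rw [Function.update_self]
          exact (key p hpJ).symm
        · have h2 : p' ≠ q := fun h => hqJ (h ▸ hp'J)
          rw [Function.update_of_ne h2]
          exact hd p hpJ p' hp'J hne

/-! ## The upper bound -/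

/-- a configuration covered by `k` lines, each containing at most `2 m` points, `m ≥ 145 k²` -/
theorem gp_le_of_cover {k m : ℕ} (hk : 0 < k) (hm : 145 * k ^ 2 ≤ m) (L : Fin k → Set (ℝ × ℝ)) (hL : ∀ i, IsLine (L i))
    (hLi : Function.Injective L) {S : Finset (ℝ × ℝ)} (hcov : ∀ p ∈ S, ∃ i, p ∈ L i)
    (hon : ∀ i, (on S (L i)).card ≤ 2 * m) : GP S ≤ m := by
  -- the points on two lines
  set I : Finset (ℝ × ℝ) := S.filter fun p => ∃ ij : Fin k × Fin k, ij.1 ≠ ij.2 ∧ p ∈ L ij.1 ∧ p ∈ L ij.2 with hIdef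
  have hIS : I ⊆ S := Finset.filter_subset _ _
  have hIc : I.card ≤ k ^ 2 := by
    have h1 : ∀ p ∈ I, ∃ ij : Fin k × Fin k, ij.1 ≠ ij.2 ∧ p ∈ L ij.1 ∧ p ∈ L ij.2 := fun p hp => (Finset.mem_filter.1 hp).2
    have h1' : ∀ p, ∃ ij : Fin k × Fin k, p ∈ I → ij.1 ≠ ij.2 ∧ p ∈ L ij.1 ∧ p ∈ L ij.2 := by
      intro p
      by_cases hp : p ∈ I
      · obtain ⟨ij, h⟩ := h1 p hp
        exact ⟨ij, fun _ => h⟩
      · exact ⟨(⟨0, hk⟩, ⟨0, hk⟩), fun h => absurd h hp⟩
    choose f hf using h1'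
    have h2 : I.card ≤ (Finset.univ : Finset (Fin k × Fin k)).card := by
      refine Finset.card_le_card_of_injOn f (fun p _ => Finset.mem_univ _) ?_
      intro p hp q hq hpq
      have hp1 := hf p hp
      have hq1 := hf q hq
      rw [← hpq] at hq1
      by_contra hne
      exact hp1.1 (hLi (line_eq (hL _) (hL _) hne hp1.2.1 hq1.2.1 hp1.2.2 hq1.2.2))
    rw [Finset.card_univ, Fintype.card_prod, Fintype.card_fin] at h2
    rw [pow_two]
    exact h2
  obtain ⟨A, hA, hAd⟩ := classes L hL hcov I hIS I (Finset.Subset.refl I)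
  -- the remaining points
  set S' : Finset (ℝ × ℝ) := S \ I.biUnion A with hS'def
  have hS'S : S' ⊆ S := Finset.sdiff_subset
  have hS'I : ∀ x ∈ S', x ∉ I := by
    intro x hx hxI
    exact (Finset.mem_sdiff.1 hx).2 (Finset.mem_biUnion.2 ⟨x, hxI, (hA x hxI).2.1⟩)
  have huni : ∀ x ∈ S', ∀ i j, x ∈ L i → x ∈ L j → i = j := by
    intro x hx i j hi hj
    by_contra hne
    exact hS'I x hx (Finset.mem_filter.2 ⟨hS'S hx, (i, j), hne, hi, hj⟩)
  obtain ⟨m', hm'⟩ : ∃ m', m = I.card + m' := ⟨m - I.card, by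
    have : k ^ 2 ≤ 145 * k ^ 2 := by omega
    omega⟩
  have hm'2 : 144 * k ^ 2 ≤ m' := by omega
  have hon' : ∀ i, (on S' (L i)).card ≤ 2 * m' := by
    intro i
    by_cases hbig : 3 * I.card + 4 * k ^ 2 < (on S (L i)).card
    · have h1 : I.card * 2 ≤ (I.biUnion fun p => on (A p) (L i)).card := by
        rw [Finset.card_biUnion (fun p hp q hq hpq => ?_)]
        · rw [← smul_eq_mul]
          exact Finset.card_nsmul_le_sum _ _ _ fun p hp => (hA p hp).2.2.2.2 i hbig
        · exact (hAd p hp q hq hpq).mono (fun x hx => (mem_on.1 hx).1) (fun x hx => (mem_on.1 hx).1)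
      have h2 : on S' (L i) ∪ (I.biUnion fun p => on (A p) (L i)) ⊆ on S (L i) := by
        intro x hx
        rcases Finset.mem_union.1 hx with hx | hx
        · exact on_mono hS'S _ hx
        · obtain ⟨p, hp, hx⟩ := Finset.mem_biUnion.1 hx
          exact on_mono (hA p hp).1 _ hx
      have h3 : Disjoint (on S' (L i)) (I.biUnion fun p => on (A p) (L i)) := by
        rw [Finset.disjoint_left]
        intro x hx hx'
        obtain ⟨p, hp, hxp⟩ := Finset.mem_biUnion.1 hx'
        exact (Finset.mem_sdiff.1 (mem_on.1 hx).1).2 (Finset.mem_biUnion.2 ⟨p, hp, (mem_on.1 hxp).1⟩)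
      have h4 := Finset.card_le_card h2
      rw [Finset.card_union_of_disjoint h3] at h4
      have h5 := hon i
      omega
    · push Not at hbig
      have h1 := Finset.card_le_card (on_mono hS'S (L i))
      have h2 : k ^ 2 ≤ 144 * k ^ 2 := by omega
      omega
  -- the colouring of the remaining points
  have hln : ∀ x : S', ∃ i, x.1 ∈ L i := fun x => hcov x.1 (hS'S x.2)
  choose ln hln using hln
  have hemb : ∀ i, Nonempty ((on S' (L i) : Finset (ℝ × ℝ)) ↪ Fin (2 * m')) := by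
    intro i
    apply Function.Embedding.nonempty_of_card_le
    rw [Fintype.card_coe, Fintype.card_fin]
    exact hon' i
  let emb : ∀ i, (on S' (L i) : Finset (ℝ × ℝ)) ↪ Fin (2 * m') := fun i => (hemb i).some
  let e : S' → Fin (2 * m') := fun x => emb (ln x) ⟨x.1, mem_on.2 ⟨x.2, hln x⟩⟩
  have hinj : ∀ x y : S', ln x = ln y → e x = e y → x = y := by
    intro x y hl he
    have key : ∀ (i j : Fin k) (hij : i = j) (hx : x.1 ∈ on S' (L i)) (hy : y.1 ∈ on S' (L j)),
        emb i ⟨x.1, hx⟩ = emb j ⟨y.1, hy⟩ → x.1 = y.1 := by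
      intro i j hij hx hy h
      subst hij
      have h8 := congrArg (fun w : (on S' (L i) : Finset (ℝ × ℝ)) => (w : ℝ × ℝ)) ((emb i).injective h)
      exact h8
    exact Subtype.ext (key _ _ hl _ _ he)
  obtain ⟨c, hc1, hc2⟩ := colouring (P := S') hk hm'2 (ln := ln)
    (bad := fun X => ∃ ℓ, IsLine ℓ ∧ ∀ u, (X u).1 ∈ ℓ) (e := e) hinj (by
      rintro v X X' ⟨ℓ, hℓ, hX⟩ ⟨ℓ', hℓ', hX'⟩ hi hi' h0 h1 h2
      have hne : (X v).1 ≠ (X (v + 1)).1 := by
        intro h
        have h3 := hi (show ln (X v) = ln (X (v + 1)) by rw [Subtype.ext h])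
        revert h3
        have : ∀ v : Fin 3, v ≠ v + 1 := by decide
        exact this v
      have h4 : ℓ = ℓ' := line_eq hℓ hℓ' hne (hX v) (hX (v + 1)) (h0 ▸ hX' v) (h1 ▸ hX' (v + 1))
      subst h4
      by_contra hne2
      have hne3 : (X (v + 2)).1 ≠ (X' (v + 2)).1 := fun h => hne2 (Subtype.ext h)
      have h5 : ℓ = L (ln (X (v + 2))) :=
        line_eq hℓ (hL _) hne3 (hX _) (hX' _) (hln _) (by rw [h2]; exact hln _)
      have h6 : ln (X v) = ln (X (v + 2)) := huni _ (X v).2 _ _ (hln _) (by rw [← h5]; exact hX v)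
      have h7 := hi h6
      revert h7
      have : ∀ v : Fin 3, v ≠ v + 2 := by decide
      exact this v)
  -- the final colouring
  have hcl : ∀ x ∈ S, x ∉ S' → ∃ p ∈ I, x ∈ A p := by
    intro x hx hx'
    by_contra hno
    push Not at hno
    refine hx' (Finset.mem_sdiff.2 ⟨hx, fun h => ?_⟩)
    obtain ⟨p, hp, hxp⟩ := Finset.mem_biUnion.1 h
    exact hno p hp hxp
  let f : ℝ × ℝ → (ℝ × ℝ) ⊕ Fin m' := fun x =>
    if h : x ∈ S' then Sum.inr (c ⟨x, h⟩) else if h2 : ∃ p ∈ I, x ∈ A p then Sum.inl h2.choose else Sum.inl x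
  have h9 := gp_le (S := S) f (I.disjSum Finset.univ) (by
    intro x hx
    by_cases hxS : x ∈ S'
    · have : f x = Sum.inr (c ⟨x, hxS⟩) := dif_pos hxS
      rw [this, Finset.inr_mem_disjSum]
      exact Finset.mem_univ _
    · have h2 := hcl x hx hxS
      have : f x = Sum.inl h2.choose := by
        simp only [f]
        rw [dif_neg hxS, dif_pos h2]
      rw [this, Finset.inl_mem_disjSum]
      exact h2.choose_spec.1) (by
    rintro (p | j) hj
    · rw [Finset.inl_mem_disjSum] at hj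
      refine (hA p hj).2.2.2.1.mono ?_
      intro x hx
      rw [Finset.mem_filter] at hx
      by_cases hxS : x ∈ S'
      · have : f x = Sum.inr (c ⟨x, hxS⟩) := dif_pos hxS
        rw [this] at hx
        exact absurd hx.2 (by simp)
      · have h2 := hcl x hx.1 hxS
        have : f x = Sum.inl h2.choose := by
          simp only [f]
          rw [dif_neg hxS, dif_pos h2]
        rw [this] at hx
        have h3 := Sum.inl.inj hx.2
        rw [← h3]
        exact h2.choose_spec.2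
    · -- a class of the random colouring
      have hin : ∀ x ∈ S.filter (fun x => f x = Sum.inr j), ∃ h : x ∈ S', c ⟨x, h⟩ = j := by
        intro x hx
        rw [Finset.mem_filter] at hx
        by_cases hxS : x ∈ S'
        · have : f x = Sum.inr (c ⟨x, hxS⟩) := dif_pos hxS
          rw [this] at hx
          exact ⟨hxS, Sum.inr.inj hx.2⟩
        · have h2 := hcl x hx.1 hxS
          have : f x = Sum.inl h2.choose := by
            simp only [f]
            rw [dif_neg hxS, dif_pos h2]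
          rw [this] at hx
          exact absurd hx.2 (by simp)
      intro ℓ hℓ x hx y hy z hz hxy hyz hxz hall
      obtain ⟨hx1, hx2⟩ := hin x hx
      obtain ⟨hy1, hy2⟩ := hin y hy
      obtain ⟨hz1, hz2⟩ := hin z hz
      -- if two of the points are on the same line of the cover then all three are
      have hpair : ∀ a b : S', a ≠ b → a.1 ∈ ℓ → b.1 ∈ ℓ → ln a = ln b → ∀ d : S', d.1 ∈ ℓ → ln d = ln a := by
        intro a b hab ha hb hl d hd
        have h5 : ℓ = L (ln a) := line_eq hℓ (hL _) (fun h => hab (Subtype.ext h)) ha hb (hln a) (by rw [hl]; exact hln b)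
        exact huni _ d.2 _ _ (hln d) (by rw [← h5]; exact hd)
      have nxy : (⟨x, hx1⟩ : S') ≠ ⟨y, hy1⟩ := fun h => hxy (congrArg Subtype.val h)
      have nyz : (⟨y, hy1⟩ : S') ≠ ⟨z, hz1⟩ := fun h => hyz (congrArg Subtype.val h)
      have nxz : (⟨x, hx1⟩ : S') ≠ ⟨z, hz1⟩ := fun h => hxz (congrArg Subtype.val h)
      have hsame : ln ⟨x, hx1⟩ = ln ⟨y, hy1⟩ → ln ⟨y, hy1⟩ = ln ⟨z, hz1⟩ → False := fun h1 h2 =>
        hc1 _ _ _ nxy nyz nxz h1 h2 (hx2.trans hy2.symm) (hy2.trans hz2.symm)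
      by_cases h1 : ln ⟨x, hx1⟩ = ln ⟨y, hy1⟩
      · have h2 := hpair _ _ nxy hall.1 hall.2.1 h1 ⟨z, hz1⟩ hall.2.2
        exact hsame h1 (h1.symm.trans h2.symm)
      · by_cases h2 : ln ⟨y, hy1⟩ = ln ⟨z, hz1⟩
        · have h3 := hpair _ _ nyz hall.2.1 hall.2.2 h2 ⟨x, hx1⟩ hall.1
          exact h1 h3
        · by_cases h3 : ln ⟨x, hx1⟩ = ln ⟨z, hz1⟩
          · have h4 := hpair _ _ nxz hall.1 hall.2.2 h3 ⟨y, hy1⟩ hall.2.1
            exact h1 h4.symm
          · refine hc2 ![⟨x, hx1⟩, ⟨y, hy1⟩, ⟨z, hz1⟩] ⟨ℓ, hℓ, ?_⟩ ?_ ?_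
            · intro u
              fin_cases u
              · exact hall.1
              · exact hall.2.1
              · exact hall.2.2
            · exact inj3 h1 h2 h3
            · exact const3 (hx2.trans hy2.symm) (hy2.trans hz2.symm))
  rw [Finset.card_disjSum, Finset.card_univ, Fintype.card_fin, ← hm'] at h9
  exact h9

/-- `N(k) ≤ 290 k³` -/
theorem gp_eq_of_large {k : ℕ} {S : Finset (ℝ × ℝ)} (hk : LC S ≤ k) (hS : 290 * k ^ 3 ≤ S.card) :
    GP S = (ONLINE S + 1) / 2 := by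
  have hlow := online_le_gp S
  refine le_antisymm ?_ (by omega)
  obtain ⟨Lf, hL1, hL2, hL3⟩ := exists_lc S
  rcases Nat.eq_zero_or_pos (LC S) with h0 | hpos
  · -- no lines: the empty configuration
    have hSe : S = ∅ := by
      rw [Finset.eq_empty_iff_forall_notMem]
      intro p hp
      obtain ⟨ℓ, hℓ, _⟩ := hL2 p hp
      rw [h0, Finset.card_eq_zero] at hL3
      rw [hL3] at hℓ
      exact absurd hℓ (Finset.notMem_empty _)
    have := gp_le_card S
    rw [hSe, Finset.card_empty] at this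
    rw [hSe]
    omega
  · set k' := LC S with hk'
    let eqv := Lf.equivFinOfCardEq hL3
    have hcov : ∀ p ∈ S, ∃ i : Fin k', p ∈ (eqv.symm i).1 := by
      intro p hp
      obtain ⟨ℓ, hℓ, hpℓ⟩ := hL2 p hp
      exact ⟨eqv ⟨ℓ, hℓ⟩, by rw [Equiv.symm_apply_apply]; exact hpℓ⟩
    have hcard : S.card ≤ k' * ONLINE S := by
      have h1 : S ⊆ (Finset.univ : Finset (Fin k')).biUnion fun i => on S (eqv.symm i).1 := by
        intro x hx
        obtain ⟨i, hi⟩ := hcov x hx
        exact Finset.mem_biUnion.2 ⟨i, Finset.mem_univ i, mem_on.2 ⟨hx, hi⟩⟩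
      refine (Finset.card_le_card h1).trans (Finset.card_biUnion_le.trans ?_)
      refine (Finset.sum_le_card_nsmul _ _ (ONLINE S) fun i _ => le_online (hL1 _ (eqv.symm i).2)).trans ?_
      rw [smul_eq_mul, Finset.card_univ, Fintype.card_fin]
    have h1 : 290 * k' ^ 3 ≤ k' * ONLINE S := by
      have : k' ^ 3 ≤ k ^ 3 := Nat.pow_le_pow_left hk 3
      omega
    have h2 : 290 * k' ^ 2 ≤ ONLINE S := by
      have h3 : k' * (290 * k' ^ 2) ≤ k' * ONLINE S := by
        calc k' * (290 * k' ^ 2) = 290 * k' ^ 3 := by ring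
          _ ≤ _ := h1
      exact Nat.le_of_mul_le_mul_left h3 hpos
    refine gp_le_of_cover hpos (by omega) (fun i => (eqv.symm i).1) (fun i => hL1 _ (eqv.symm i).2)
      (fun i j hij => eqv.symm.injective (Subtype.ext hij)) hcov ?_
    intro i
    have := le_online (S := S) (hL1 _ (eqv.symm i).2)
    change (on S (eqv.symm i).1).card ≤ _
    omega

end Pool.Agent.Q231.GPK
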